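import Mathlib

namespace Pool.Agent.H38.LC

open Real Finset

/-- the polynomial with coefficients `c` supported in `S` -/
noncomputable def pol (c : ℕ → ℂ) (S : Finset ℕ) (z : ℂ) : ℂ := ∑ k ∈ S, c k * z ^ k

lemma pol_diff (c : ℕ → ℂ) (S : Finset ℕ) : Differentiable ℂ (pol c S) := by
  unfold pol
  fun_prop

lemma pol_inside (c : ℕ → ℂ) (S : Finset ℕ) (M : ℝ) (hM : ∀ z : ℂ, ‖z‖ = 1 → ‖pol c S z‖ ≤ M)
    (w : ℂ) (hw : ‖w‖ ≤ 1) : ‖pol c S w‖ ≤ M := by
  apply Complex.norm_le_of_forall_mem_frontier_norm_le (U := Metric.ball (0 : ℂ) 1)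
    Metric.isBounded_ball (pol_diff c S).diffContOnCl
  · intro z hz
    rw [frontier_ball (0 : ℂ) one_ne_zero] at hz
    exact hM z (by simpa using hz)
  · rw [closure_ball (0 : ℂ) one_ne_zero]
    simpa using hw

lemma pol_outside (c : ℕ → ℂ) (S : Finset ℕ) (n : ℕ) (hS : ∀ k ∈ S, k ≤ n) (M : ℝ)
    (hM : ∀ z : ℂ, ‖z‖ = 1 → ‖pol c S z‖ ≤ M) (w : ℂ) (hw : 1 ≤ ‖w‖) :
    ‖pol c S w‖ ≤ M * ‖w‖ ^ n := by
  have hw0 : w ≠ 0 := by
    intro h; rw [h, norm_zero] at hw; linarith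
  -- reversed polynomial
  let q : ℂ → ℂ := fun u => ∑ k ∈ S, c k * u ^ (n - k)
  have hq : Differentiable ℂ q := by
    simp only [q]; fun_prop
  have hrel : ∀ u : ℂ, u ≠ 0 → pol c S u = u ^ n * q u⁻¹ := by
    intro u hu
    simp only [pol, q, mul_sum]
    refine sum_congr rfl fun k hk => ?_
    have hkn := hS k hk
    have : u ^ n = u ^ (n - k) * u ^ k := by rw [← pow_add]; congr 1; omega
    rw [this, inv_pow]
    have : u ^ (n - k) ≠ 0 := pow_ne_zero _ hu
    field_simp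
  have hq1 : ∀ u : ℂ, ‖u‖ = 1 → ‖q u‖ ≤ M := by
    intro u hu
    have hu0 : u ≠ 0 := by intro h; rw [h, norm_zero] at hu; linarith
    have h1 := hrel u⁻¹ (inv_ne_zero hu0)
    rw [inv_inv] at h1
    have h2 : ‖pol c S u⁻¹‖ = ‖q u‖ := by
      rw [h1, norm_mul, norm_pow, norm_inv, hu]; simp
    rw [← h2]
    exact hM _ (by rw [norm_inv, hu, inv_one])
  have hq2 : ‖q w⁻¹‖ ≤ M := by
    apply Complex.norm_le_of_forall_mem_frontier_norm_le (U := Metric.ball (0 : ℂ) 1)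
      Metric.isBounded_ball hq.diffContOnCl
    · intro z hz
      rw [frontier_ball (0 : ℂ) one_ne_zero] at hz
      exact hq1 z (by simpa using hz)
    · rw [closure_ball (0 : ℂ) one_ne_zero]
      simp only [Metric.mem_closedBall, dist_zero_right, norm_inv]
      exact inv_le_one_of_one_le₀ hw
  rw [hrel w hw0, norm_mul, norm_pow, mul_comm]
  gcongr

lemma pol_deriv (c : ℕ → ℂ) (S : Finset ℕ) (n : ℕ) (hn : 1 ≤ n) (hS : ∀ k ∈ S, k ≤ n) (M : ℝ)
    (hM0 : 0 ≤ M)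
    (hM : ∀ z : ℂ, ‖z‖ = 1 → ‖pol c S z‖ ≤ M) (z : ℂ) (hz : ‖z‖ ≤ 1) :
    ‖deriv (pol c S) z‖ ≤ exp 1 * n * M := by
  have hn0 : (0 : ℝ) < n := by exact_mod_cast hn
  have hbd : ∀ w ∈ Metric.sphere z (1 / (n : ℝ)), ‖pol c S w‖ ≤ exp 1 * M := by
    intro w hw
    have hw1 : ‖w‖ ≤ 1 + 1 / n := by
      have h1 : ‖w - z‖ = 1 / n := by simpa [dist_eq_norm] using hw
      calc ‖w‖ = ‖z + (w - z)‖ := by congr 1; ring
        _ ≤ ‖z‖ + ‖w - z‖ := norm_add_le _ _
        _ ≤ 1 + 1 / n := by rw [h1]; gcongr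
    have he : (1 : ℝ) ≤ exp 1 := Real.one_le_exp (by norm_num)
    rcases le_total ‖w‖ 1 with h | h
    · calc ‖pol c S w‖ ≤ M := pol_inside c S M hM w h
        _ ≤ exp 1 * M := by nlinarith
    · calc ‖pol c S w‖ ≤ M * ‖w‖ ^ n := pol_outside c S n hS M hM w h
        _ ≤ M * exp 1 := by
          gcongr
          calc ‖w‖ ^ n ≤ (1 + 1 / n) ^ n := by gcongr
            _ ≤ (exp (1 / n)) ^ n := by
              gcongr
              have := Real.add_one_le_exp (1 / (n : ℝ))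
              linarith
            _ = exp 1 := by
              rw [← Real.exp_nat_mul]; congr 1; field_simp
        _ = exp 1 * M := mul_comm _ _
  have := Complex.norm_deriv_le_of_forall_mem_sphere_norm_le (by positivity : 0 < 1 / (n : ℝ))
    (pol_diff c S).diffContOnCl hbd
  calc ‖deriv (pol c S) z‖ ≤ exp 1 * M / (1 / n) := this
    _ = exp 1 * n * M := by field_simp

lemma pol_lip (c : ℕ → ℂ) (S : Finset ℕ) (n : ℕ) (hn : 1 ≤ n) (hS : ∀ k ∈ S, k ≤ n) (M : ℝ)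
    (hM0 : 0 ≤ M)
    (hM : ∀ z : ℂ, ‖z‖ = 1 → ‖pol c S z‖ ≤ M) (z w : ℂ) (hz : ‖z‖ ≤ 1) (hw : ‖w‖ ≤ 1) :
    ‖pol c S z - pol c S w‖ ≤ exp 1 * n * M * ‖z - w‖ := by
  apply Convex.norm_image_sub_le_of_norm_deriv_le (s := Metric.closedBall (0 : ℂ) 1)
    (fun x _ => (pol_diff c S) x)
    (fun x hx => pol_deriv c S n hn hS M hM0 hM x (by simpa using hx)) (convex_closedBall _ _)
  · simpa using hw
  · simpa using hz

lemma norm_exp_sub_exp_le (s t : ℝ) :
    ‖Complex.exp (s * Complex.I) - Complex.exp (t * Complex.I)‖ ≤ |s - t| := by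
  have h1 : Complex.exp (s * Complex.I) - Complex.exp (t * Complex.I) =
      Complex.exp (t * Complex.I) * (Complex.exp (Complex.I * ((s - t : ℝ) : ℂ)) - 1) := by
    rw [mul_sub, mul_one, ← Complex.exp_add]
    congr 2
    push_cast
    ring
  rw [h1, norm_mul, Complex.norm_exp_ofReal_mul_I, one_mul]
  exact Real.norm_exp_I_mul_ofReal_sub_one_le

/-- real part in direction `φ` -/
noncomputable def R (a : ℕ → ℝ) (S : Finset ℕ) (θ φ : ℝ) : ℝ := ∑ k ∈ S, a k * cos (k * θ - φ)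

lemma R_eq (a : ℕ → ℝ) (S : Finset ℕ) (θ φ : ℝ) :
    R a S θ φ = (Complex.exp (-φ * Complex.I) *
      pol (fun k => (a k : ℂ)) S (Complex.exp (θ * Complex.I))).re := by
  simp only [R, pol, mul_sum, Complex.re_sum]
  refine sum_congr rfl fun k _ => ?_
  have h1 : Complex.exp (-φ * Complex.I) * ((a k : ℂ) * Complex.exp (θ * Complex.I) ^ k) =
      (a k : ℂ) * Complex.exp (((k * θ - φ : ℝ) : ℂ) * Complex.I) := by
    rw [← Complex.exp_nat_mul, mul_left_comm, ← Complex.exp_add]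
    congr 2
    push_cast
    ring
  rw [h1, Complex.re_ofReal_mul, Complex.exp_ofReal_mul_I_re]



/-- grid angles in `(0, π)` -/
noncomputable def grid (N j : ℕ) : ℝ := π * (2 * j + 1) / (2 * N)

/-- directions -/
noncomputable def dir (J l : ℕ) : ℝ := -π + 2 * π * l / J

lemma pol_conj (a : ℕ → ℝ) (S : Finset ℕ) (z : ℂ) :
    ‖pol (fun k => (a k : ℂ)) S ((starRingEnd ℂ) z)‖ = ‖pol (fun k => (a k : ℂ)) S z‖ := by
  have : pol (fun k => (a k : ℂ)) S ((starRingEnd ℂ) z) =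
      (starRingEnd ℂ) (pol (fun k => (a k : ℂ)) S z) := by
    simp [pol, map_sum]
  rw [this, RCLike.norm_conj]

lemma exists_grid (N : ℕ) (hN : 0 < N) (θ : ℝ) (h0 : 0 ≤ θ) (h1 : θ ≤ π) :
    ∃ j < N, |θ - grid N j| ≤ π / (2 * N) := by
  have hNr : (0 : ℝ) < N := by exact_mod_cast hN
  set t := θ * N / π with ht
  have ht0 : 0 ≤ t := by positivity
  have htN : t ≤ N := by
    rw [ht, div_le_iff₀ pi_pos]
    nlinarith
  have hθ : θ = π / N * t := by rw [ht]; field_simp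
  have hg : ∀ j : ℕ, grid N j = π / N * (j + 1 / 2) := by
    intro j; rw [grid]; field_simp
  have key : ∀ j : ℕ, |t - (j + 1 / 2)| ≤ 1 / 2 → |θ - grid N j| ≤ π / (2 * N) := by
    intro j hj
    rw [hg, hθ, ← mul_sub, abs_mul, abs_of_pos (by positivity : 0 < π / (N : ℝ))]
    calc π / N * |t - (j + 1 / 2)| ≤ π / N * (1 / 2) := by gcongr
      _ = π / (2 * N) := by field_simp
  by_cases hc : ⌊t⌋₊ < N
  · refine ⟨⌊t⌋₊, hc, key _ ?_⟩
    have h2 := Nat.floor_le ht0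
    have h3 := Nat.lt_floor_add_one t
    rw [abs_le]; constructor <;> linarith
  · push Not at hc
    have h2 := Nat.floor_le ht0
    have h3 : (N : ℝ) ≤ ⌊t⌋₊ := by exact_mod_cast hc
    have h4 : t = N := by linarith
    refine ⟨N - 1, by omega, key _ ?_⟩
    have h5 : ((N - 1 : ℕ) : ℝ) = N - 1 := by
      rw [Nat.cast_sub (by omega)]; simp
    rw [h4, h5, abs_le]; constructor <;> linarith

lemma exists_dir (J : ℕ) (hJ : 0 < J) (ψ : ℝ) (h0 : -π < ψ) (h1 : ψ ≤ π) :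
    ∃ l ≤ J, |ψ - dir J l| ≤ 2 * π / J := by
  have hJr : (0 : ℝ) < J := by exact_mod_cast hJ
  set t := (ψ + π) * J / (2 * π) with ht
  have ht0 : 0 ≤ t := by
    rw [ht]; apply div_nonneg _ (by positivity)
    apply mul_nonneg _ hJr.le; linarith
  have htJ : t ≤ J := by
    rw [ht, div_le_iff₀ (by positivity)]
    nlinarith
  have hψ : ψ = -π + 2 * π / J * t := by rw [ht]; field_simp; ring
  refine ⟨⌊t⌋₊, ?_, ?_⟩
  · have := Nat.floor_le ht0
    exact_mod_cast this.trans htJ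
  · have hd : dir J ⌊t⌋₊ = -π + 2 * π / J * ⌊t⌋₊ := by rw [dir]; ring
    have h2 := Nat.floor_le ht0
    have h3 := Nat.lt_floor_add_one t
    have h4 : ψ - dir J ⌊t⌋₊ = 2 * π / J * (t - ⌊t⌋₊) := by rw [hd]; nth_rw 1 [hψ]; ring
    rw [h4, abs_mul, abs_of_pos (by positivity : 0 < 2 * π / (J : ℝ))]
    have h5 : |t - ⌊t⌋₊| ≤ 1 := by rw [abs_le]; constructor <;> linarith
    calc 2 * π / J * |t - ⌊t⌋₊| ≤ 2 * π / J * 1 := by gcongr
      _ = 2 * π / J := mul_one _

lemma disc (a : ℕ → ℝ) (S : Finset ℕ) (n : ℕ) (hn : 1 ≤ n) (hS : ∀ k ∈ S, k ≤ n) (δ : ℝ)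
    (hδ : 0 < δ) (hδ1 : δ < 1) (N J : ℕ) (hN : 5 * n ≤ δ * N) (hJ : 7 ≤ δ * J) (A : ℝ)
    (h : ∀ j < N, ∀ l ≤ J, R a S (grid N j) (dir J l) ≤ A) (z : ℂ) (hz : ‖z‖ = 1) :
    ‖pol (fun k => (a k : ℂ)) S z‖ ≤ A / (1 - δ) ^ 2 := by
  have hn0 : (0 : ℝ) < n := by exact_mod_cast hn
  have hNr : (0 : ℝ) < N := by
    by_contra hcon
    push Not at hcon
    nlinarith
  have hN0 : 0 < N := by exact_mod_cast hNr
  have hJr : (0 : ℝ) < J := by
    by_contra hcon
    push Not at hcon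
    nlinarith
  have hJ0 : 0 < J := by exact_mod_cast hJr
  set p := pol (fun k => (a k : ℂ)) S with hp
  -- a maximiser in the upper half circle
  obtain ⟨z₀, hz₀, hmax⟩ := (isCompact_sphere (0 : ℂ) 1).exists_isMaxOn
    ⟨1, by simp⟩ ((pol_diff (fun k => (a k : ℂ)) S).continuous.norm.continuousOn)
  have hz₀1 : ‖z₀‖ = 1 := by simpa using hz₀
  set M := ‖p z₀‖ with hMdef
  have hM : ∀ w : ℂ, ‖w‖ = 1 → ‖p w‖ ≤ M := fun w hw => hmax (by simpa using hw)
  have hM0 : 0 ≤ M := norm_nonneg _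
  obtain ⟨θ, hθ0, hθ1, hθM⟩ : ∃ θ : ℝ, 0 ≤ θ ∧ θ ≤ π ∧ ‖p (Complex.exp (θ * Complex.I))‖ = M := by
    have hpol := Complex.norm_mul_exp_arg_mul_I z₀
    rw [hz₀1] at hpol
    simp only [Complex.ofReal_one, one_mul] at hpol
    rcases le_total 0 (Complex.arg z₀) with h0 | h0
    · exact ⟨Complex.arg z₀, h0, Complex.arg_le_pi z₀, by rw [hpol]⟩
    · refine ⟨-Complex.arg z₀, by linarith, by linarith [Complex.neg_pi_lt_arg z₀], ?_⟩
      have : Complex.exp (((-Complex.arg z₀ : ℝ) : ℂ) * Complex.I) = (starRingEnd ℂ) z₀ := by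
        conv_rhs => rw [← hpol]
        rw [← Complex.exp_conj]
        congr 1
        simp
      rw [this, hp, pol_conj, hMdef]
  obtain ⟨j, hj, hjd⟩ := exists_grid N hN0 θ hθ0 hθ1
  set zj := Complex.exp (grid N j * Complex.I) with hzj
  have hzj1 : ‖zj‖ = 1 := Complex.norm_exp_ofReal_mul_I _
  have hlip := pol_lip (fun k => (a k : ℂ)) S n hn hS M hM0 hM (Complex.exp (θ * Complex.I)) zj
    (Complex.norm_exp_ofReal_mul_I _).le hzj1.le
  have hd : ‖Complex.exp (θ * Complex.I) - zj‖ ≤ π / (2 * N) := (norm_exp_sub_exp_le _ _).trans hjd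
  have hclose : exp 1 * n * M * ‖Complex.exp (θ * Complex.I) - zj‖ ≤ δ * M := by
    have he : exp 1 * π ≤ 10 := by
      have h1 := Real.exp_one_lt_d9
      have h2 := Real.pi_lt_d2
      have h3 := Real.pi_pos
      nlinarith [Real.exp_pos 1]
    calc exp 1 * n * M * ‖Complex.exp (θ * Complex.I) - zj‖ ≤ exp 1 * n * M * (π / (2 * N)) := by
          gcongr
      _ = (exp 1 * π) * (n / (2 * N)) * M := by ring
      _ ≤ 10 * (n / (2 * N)) * M := by gcongr
      _ = (5 * n / N) * M := by ring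
      _ ≤ δ * M := by
        gcongr
        rw [div_le_iff₀ hNr]; exact hN
  have hpz : (1 - δ) * M ≤ ‖p zj‖ := by
    have h1 : ‖p (Complex.exp (θ * Complex.I))‖ ≤ ‖p (Complex.exp (θ * Complex.I)) - p zj‖ + ‖p zj‖ := by
      calc ‖p (Complex.exp (θ * Complex.I))‖
          = ‖(p (Complex.exp (θ * Complex.I)) - p zj) + p zj‖ := by rw [sub_add_cancel]
        _ ≤ _ := norm_add_le _ _
    rw [hθM] at h1
    have h2 := hlip.trans hclose
    linarith
  -- direction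
  obtain ⟨l, hl, hld⟩ := exists_dir J hJ0 (Complex.arg (p zj)) (Complex.neg_pi_lt_arg _)
    (Complex.arg_le_pi _)
  have hR : R a S (grid N j) (dir J l) = ‖p zj‖ * cos (Complex.arg (p zj) - dir J l) := by
    rw [R_eq, ← hzj, ← hp]
    have h1 : p zj = (‖p zj‖ : ℂ) * Complex.exp (Complex.arg (p zj) * Complex.I) :=
      (Complex.norm_mul_exp_arg_mul_I _).symm
    have h2 : Complex.exp (-(dir J l : ℂ) * Complex.I) * p zj = (‖p zj‖ : ℂ) *
        Complex.exp (((Complex.arg (p zj) - dir J l : ℝ) : ℂ) * Complex.I) := by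
      conv_lhs => rw [h1]
      rw [mul_left_comm, ← Complex.exp_add]
      congr 2
      push_cast
      ring
    rw [h2, Complex.re_ofReal_mul, Complex.exp_ofReal_mul_I_re]
  have hcos : 1 - δ ≤ cos (Complex.arg (p zj) - dir J l) := by
    have h1 := Real.one_sub_sq_div_two_le_cos (x := Complex.arg (p zj) - dir J l)
    have h2 : |Complex.arg (p zj) - dir J l| ≤ δ := by
      refine hld.trans ?_
      rw [div_le_iff₀ hJr]
      have := Real.pi_lt_d2
      linarith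
    have h3 : (Complex.arg (p zj) - dir J l) ^ 2 ≤ δ ^ 2 := by
      rw [← sq_abs]; gcongr
    nlinarith
  have hA1 : (1 - δ) ^ 2 * M ≤ A := by
    calc (1 - δ) ^ 2 * M = (1 - δ) * ((1 - δ) * M) := by ring
      _ ≤ (1 - δ) * ‖p zj‖ := by
        apply mul_le_mul_of_nonneg_left hpz; linarith
      _ ≤ ‖p zj‖ * cos (Complex.arg (p zj) - dir J l) := by
        rw [mul_comm]
        apply mul_le_mul_of_nonneg_left hcos (norm_nonneg _)
      _ = R a S (grid N j) (dir J l) := hR.symm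
      _ ≤ A := h j hj l hl
  rw [le_div_iff₀ (by apply pow_pos; linarith)]
  calc ‖p z‖ * (1 - δ) ^ 2 ≤ M * (1 - δ) ^ 2 := by
        apply mul_le_mul_of_nonneg_right (hM z hz) (by positivity)
    _ ≤ A := by linarith

/-- sum of `1 / sin` over the grid -/
lemma grid_sin_pos (N j : ℕ) (hj : j < N) : 0 < sin (grid N j) := by
  have hNr : (0 : ℝ) < N := by exact_mod_cast (by omega : 0 < N)
  apply sin_pos_of_pos_of_lt_pi
  · rw [grid]; positivity
  · rw [grid, div_lt_iff₀ (by positivity)]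
    have : (2 * j + 1 : ℝ) < 2 * N := by
      have : 2 * j + 1 < 2 * N := by omega
      exact_mod_cast this
    nlinarith [pi_pos]

lemma inv_sin_le {x : ℝ} (h0 : 0 < x) (h1 : x < π) : 1 / sin x ≤ π / 2 * (1 / x + 1 / (π - x)) := by
  have hs : 0 < sin x := sin_pos_of_pos_of_lt_pi h0 h1
  have hy : 0 < π - x := by linarith
  rcases le_total x (π / 2) with h | h
  · have h2 := Real.mul_le_sin h0.le h
    calc 1 / sin x ≤ 1 / (2 / π * x) := by gcongr
      _ = π / 2 * (1 / x) := by field_simp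
      _ ≤ π / 2 * (1 / x + 1 / (π - x)) := by gcongr; linarith [show 0 < 1 / (π - x) by positivity]
  · have h2 := Real.mul_le_sin (x := π - x) hy.le (by linarith)
    rw [sin_pi_sub] at h2
    calc 1 / sin x ≤ 1 / (2 / π * (π - x)) := by gcongr
      _ = π / 2 * (1 / (π - x)) := by field_simp
      _ ≤ π / 2 * (1 / x + 1 / (π - x)) := by gcongr; linarith [show 0 < 1 / x by positivity]

lemma sum_inv_sin (N : ℕ) (hN : 0 < N) :
    ∑ j ∈ range N, 1 / sin (grid N j) ≤ 2 * N * (1 + log N) := by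
  have hNr : (0 : ℝ) < N := by exact_mod_cast hN
  have h1 : ∀ j ∈ range N, 1 / sin (grid N j) ≤ π / 2 * (1 / grid N j + 1 / grid N (N - 1 - j)) := by
    intro j hj
    rw [mem_range] at hj
    have hg : π - grid N j = grid N (N - 1 - j) := by
      rw [grid, grid]
      have : ((N - 1 - j : ℕ) : ℝ) = N - 1 - j := by
        rw [Nat.cast_sub (by omega), Nat.cast_sub (by omega)]; simp
      rw [this]; field_simp; ring
    rw [← hg]
    apply inv_sin_le
    · rw [grid]; positivity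
    · have := grid_sin_pos N (N - 1 - j) (by omega)
      by_contra hcon
      push Not at hcon
      have h2 : grid N (N - 1 - j) ≤ 0 := by rw [← hg]; linarith
      have h3 : 0 < grid N (N - 1 - j) := by rw [grid]; positivity
      linarith
  have h2 : ∑ j ∈ range N, 1 / grid N (N - 1 - j) = ∑ j ∈ range N, 1 / grid N j :=
    Finset.sum_range_reflect (fun j => 1 / grid N j) N
  have h3 : ∀ j ∈ range N, 1 / grid N j ≤ 2 * N / π * (1 / ((j + 1 : ℕ) : ℝ)) := by
    intro j _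
    rw [grid]
    rw [one_div_div, div_mul_div_comm, mul_one]
    gcongr
    push_cast
    linarith
  have h4 : ∑ j ∈ range N, (1 : ℝ) / ((j + 1 : ℕ) : ℝ) ≤ 1 + log N := by
    have h5 : ∑ j ∈ range N, (1 : ℝ) / ((j + 1 : ℕ) : ℝ) = (harmonic N : ℝ) := by
      rw [harmonic]; push_cast
      refine sum_congr rfl fun j _ => ?_
      rw [one_div]
    rw [h5]
    exact harmonic_le_one_add_log N
  calc ∑ j ∈ range N, 1 / sin (grid N j)
      ≤ ∑ j ∈ range N, π / 2 * (1 / grid N j + 1 / grid N (N - 1 - j)) := sum_le_sum h1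
    _ = π / 2 * (∑ j ∈ range N, 1 / grid N j + ∑ j ∈ range N, 1 / grid N j) := by
      rw [← mul_sum, sum_add_distrib, h2]
    _ ≤ π / 2 * (2 * (2 * N / π * (1 + log N))) := by
      have h6 : ∑ j ∈ range N, 1 / grid N j ≤ 2 * N / π * (1 + log N) := by
        calc ∑ j ∈ range N, 1 / grid N j ≤ ∑ j ∈ range N, 2 * N / π * (1 / ((j + 1 : ℕ) : ℝ)) :=
              sum_le_sum h3
          _ = 2 * N / π * ∑ j ∈ range N, (1 : ℝ) / ((j + 1 : ℕ) : ℝ) := by rw [mul_sum]
          _ ≤ _ := by gcongr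
      gcongr
      linarith
    _ = 2 * N * (1 + log N) := by field_simp

end Pool.Agent.H38.LC
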