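import Mathlib

namespace Pool.Agent.H38.LC

open MeasureTheory ProbabilityTheory Real

lemma exp_taylor (x : ℝ) : |exp x - (1 + x + x ^ 2 / 2)| ≤ |x| ^ 3 * exp |x| := by
  have h := Complex.norm_exp_sub_sum_le_norm_mul_exp (x : ℂ) 3
  have h1 : Complex.exp (x : ℂ) - ∑ m ∈ Finset.range 3, (x : ℂ) ^ m / (m.factorial : ℂ) =
      ((exp x - (1 + x + x ^ 2 / 2) : ℝ) : ℂ) := by
    simp [Finset.sum_range_succ, Nat.factorial]
  rw [h1, Complex.norm_real, Complex.norm_real] at h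
  simpa using h

lemma exp_sub_sq_le {u : ℝ} (h0 : 0 ≤ u) (h1 : u ≤ 1) : exp (u - u ^ 2) ≤ 1 + u := by
  set y := u - u ^ 2 with hy
  have hy0 : 0 ≤ y := by rw [hy]; nlinarith
  have hy1 : y ≤ 1 := by rw [hy]; nlinarith
  have hyu : y ≤ u := by rw [hy]; nlinarith
  have h2 : exp y ≤ 1 + y + y ^ 2 := by
    have := Real.abs_exp_sub_one_sub_id_le (x := y) (by rw [abs_le]; constructor <;> linarith)
    have := (abs_le.1 this).2
    linarith
  have h3 : y ^ 2 ≤ u ^ 2 := by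
    apply pow_le_pow_left₀ hy0 hyu
  calc exp y ≤ 1 + y + y ^ 2 := h2
    _ ≤ 1 + (u - u ^ 2) + u ^ 2 := by rw [hy] at h3 ⊢; linarith
    _ = 1 + u := by ring

lemma mgf_bounds {Ω : Type*} [MeasurableSpace Ω] {P : Measure Ω} [IsProbabilityMeasure P]
    {X : Ω → ℝ} (hX : AEMeasurable X P) {c : ℝ} (hc : 0 < c)
    (hint : Integrable (fun ω => exp (c * |X ω|)) P) (h0 : ∫ ω, X ω ∂P = 0)
    (h2 : ∫ ω, X ω ^ 2 ∂P = 1) :
    ∃ s₀ > 0, ∃ C ≥ 0, ∀ s : ℝ, |s| ≤ s₀ → Integrable (fun ω => exp (s * X ω)) P ∧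
      exp (s ^ 2 / 2 - C * |s| ^ 3) ≤ ∫ ω, exp (s * X ω) ∂P ∧
      ∫ ω, exp (s * X ω) ∂P ≤ exp (s ^ 2 / 2 + C * |s| ^ 3) := by
  set E := ∫ ω, exp (c * |X ω|) ∂P with hE
  have hE0 : 0 ≤ E := integral_nonneg fun ω => (exp_pos _).le
  set C₁ : ℝ := 48 / c ^ 3 * E with hC₁
  have hC₁0 : 0 ≤ C₁ := by positivity
  have hXint : Integrable X P := by
    refine (hint.const_mul (1 / c)).mono' hX.aestronglyMeasurable (Filter.Eventually.of_forall fun ω => ?_)
    rw [Real.norm_eq_abs]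
    have := Real.add_one_le_exp (c * |X ω|)
    rw [div_mul_eq_mul_div, one_mul, le_div_iff₀ hc]
    nlinarith
  have hX2int : Integrable (fun ω => X ω ^ 2) P := by
    refine (hint.const_mul (2 / c ^ 2)).mono' (hX.pow_const 2).aestronglyMeasurable
      (Filter.Eventually.of_forall fun ω => ?_)
    rw [Real.norm_eq_abs, abs_of_nonneg (sq_nonneg _)]
    have := Real.pow_div_factorial_le_exp (c * |X ω|) (by positivity) 2
    rw [div_mul_eq_mul_div, le_div_iff₀ (by positivity)]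
    have h3 : (c * |X ω|) ^ 2 = c ^ 2 * X ω ^ 2 := by rw [mul_pow, sq_abs]
    rw [h3] at this
    norm_num [Nat.factorial] at this
    linarith
  have hcube : ∀ ω, |X ω| ^ 3 * exp (c / 2 * |X ω|) ≤ 48 / c ^ 3 * exp (c * |X ω|) := by
    intro ω
    have := Real.pow_div_factorial_le_exp (c / 2 * |X ω|) (by positivity) 3
    have h4 : |X ω| ^ 3 ≤ 48 / c ^ 3 * exp (c / 2 * |X ω|) := by
      rw [div_mul_eq_mul_div, le_div_iff₀ (by positivity)]
      have h3 : (c / 2 * |X ω|) ^ 3 = c ^ 3 / 8 * |X ω| ^ 3 := by ring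
      rw [h3] at this
      norm_num [Nat.factorial] at this
      linarith
    calc |X ω| ^ 3 * exp (c / 2 * |X ω|)
        ≤ (48 / c ^ 3 * exp (c / 2 * |X ω|)) * exp (c / 2 * |X ω|) := by gcongr
      _ = 48 / c ^ 3 * exp (c * |X ω|) := by
        rw [mul_assoc, ← exp_add]; congr 2; ring
  refine ⟨min (c / 2) (min 1 (1 / (2 * C₁ + 1))), by positivity, C₁ + 1, by positivity, ?_⟩
  intro s hs
  have hs1 : |s| ≤ c / 2 := hs.trans (min_le_left _ _)
  have hs2 : |s| ≤ 1 := hs.trans ((min_le_right _ _).trans (min_le_left _ _))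
  have hs3 : |s| ≤ 1 / (2 * C₁ + 1) := hs.trans ((min_le_right _ _).trans (min_le_right _ _))
  have hs4 : C₁ * |s| ≤ 1 / 2 := by
    rw [le_div_iff₀ (by positivity)] at hs3
    nlinarith [abs_nonneg s]
  have hsint : Integrable (fun ω => exp (s * X ω)) P := by
    refine hint.mono' ((measurable_exp.comp_aemeasurable (hX.const_mul s)).aestronglyMeasurable)
      (Filter.Eventually.of_forall fun ω => ?_)
    rw [Real.norm_eq_abs, abs_of_pos (exp_pos _)]
    apply exp_le_exp.2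
    calc s * X ω ≤ |s * X ω| := le_abs_self _
      _ = |s| * |X ω| := abs_mul _ _
      _ ≤ c * |X ω| := by
        apply mul_le_mul_of_nonneg_right _ (abs_nonneg _)
        linarith
  have hTint : Integrable (fun ω => 1 + s * X ω + (s * X ω) ^ 2 / 2) P := by
    have h5 : (fun ω => 1 + s * X ω + (s * X ω) ^ 2 / 2) =
        fun ω => 1 + s * X ω + s ^ 2 / 2 * X ω ^ 2 := by
      ext ω; ring
    rw [h5]
    exact ((integrable_const _).add (hXint.const_mul s)).add (hX2int.const_mul _)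
  have hTval : ∫ ω, (1 + s * X ω + (s * X ω) ^ 2 / 2) ∂P = 1 + s ^ 2 / 2 := by
    have h5 : (fun ω => 1 + s * X ω + (s * X ω) ^ 2 / 2) =
        fun ω => (1 + s * X ω) + s ^ 2 / 2 * X ω ^ 2 := by
      ext ω; ring
    have ha : Integrable (fun ω => (1 : ℝ) + s * X ω) P :=
      (integrable_const _).add (hXint.const_mul s)
    have hb : Integrable (fun ω => s ^ 2 / 2 * X ω ^ 2) P := hX2int.const_mul _
    have hc' : Integrable (fun ω => s * X ω) P := hXint.const_mul s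
    rw [h5, integral_add ha hb, integral_add (integrable_const _) hc', integral_const_mul,
      integral_const_mul, h0, h2]
    simp
  have hdiff : |∫ ω, exp (s * X ω) ∂P - (1 + s ^ 2 / 2)| ≤ C₁ * |s| ^ 3 := by
    rw [← hTval, ← integral_sub hsint hTint]
    have h6 : C₁ * |s| ^ 3 = ∫ ω, |s| ^ 3 * (48 / c ^ 3 * exp (c * |X ω|)) ∂P := by
      rw [integral_const_mul, integral_const_mul, hC₁]; ring
    rw [h6]
    rw [← Real.norm_eq_abs]
    apply norm_integral_le_of_norm_le ((hint.const_mul _).const_mul _)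
    refine Filter.Eventually.of_forall fun ω => ?_
    rw [Real.norm_eq_abs]
    calc |exp (s * X ω) - (1 + s * X ω + (s * X ω) ^ 2 / 2)|
        ≤ |s * X ω| ^ 3 * exp |s * X ω| := exp_taylor _
      _ = |s| ^ 3 * (|X ω| ^ 3 * exp (|s| * |X ω|)) := by rw [abs_mul]; ring
      _ ≤ |s| ^ 3 * (|X ω| ^ 3 * exp (c / 2 * |X ω|)) := by gcongr
      _ ≤ |s| ^ 3 * (48 / c ^ 3 * exp (c * |X ω|)) := by
        apply mul_le_mul_of_nonneg_left (hcube ω) (by positivity)
  rw [abs_le] at hdiff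
  refine ⟨hsint, ?_, ?_⟩
  · have hcs : |s| ^ 3 = |s| * s ^ 2 := by rw [← sq_abs s]; ring
    have hs5 : s ^ 2 ≤ 1 := by rw [← sq_abs]; nlinarith [abs_nonneg s]
    set u := s ^ 2 / 2 - C₁ * |s| ^ 3 with hu
    have hu0 : 0 ≤ u := by
      rw [hu, hcs]
      nlinarith [sq_nonneg s]
    have hu1 : u ≤ 1 := by
      rw [hu]
      have : 0 ≤ C₁ * |s| ^ 3 := by positivity
      linarith
    have hu2 : u ^ 2 ≤ |s| ^ 3 := by
      have h7 : u ≤ s ^ 2 := by
        rw [hu]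
        have : 0 ≤ C₁ * |s| ^ 3 := by positivity
        have := sq_nonneg s
        linarith
      calc u ^ 2 ≤ (s ^ 2) ^ 2 := pow_le_pow_left₀ hu0 h7 2
        _ = |s| ^ 4 := by rw [← sq_abs s]; ring
        _ ≤ |s| ^ 3 := pow_le_pow_of_le_one (abs_nonneg _) hs2 (by norm_num)
    calc exp (s ^ 2 / 2 - (C₁ + 1) * |s| ^ 3) ≤ exp (u - u ^ 2) := by
          apply exp_le_exp.2; rw [hu] at hu2 ⊢; linarith
      _ ≤ 1 + u := exp_sub_sq_le hu0 hu1
      _ ≤ ∫ ω, exp (s * X ω) ∂P := by rw [hu]; linarith [hdiff.1]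
  · calc ∫ ω, exp (s * X ω) ∂P ≤ 1 + s ^ 2 / 2 + C₁ * |s| ^ 3 := by linarith [hdiff.2]
      _ ≤ 1 + (s ^ 2 / 2 + (C₁ + 1) * |s| ^ 3) := by
        have : 0 ≤ |s| ^ 3 := by positivity
        linarith
      _ ≤ exp (s ^ 2 / 2 + (C₁ + 1) * |s| ^ 3) := by
        have := Real.add_one_le_exp (s ^ 2 / 2 + (C₁ + 1) * |s| ^ 3)
        linarith

end Pool.Agent.H38.LC
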