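import Mathlib
import Pool.Agent.H38.LC.Mgf

namespace Pool.Agent.H38.LC

open MeasureTheory ProbabilityTheory Real

/-- Two-sided bounds for exponential moments of linear combinations. -/
def Good {Ω : Type*} [MeasurableSpace Ω] (P : Measure Ω) (ξ : ℕ → Ω → ℝ) (s₀ C : ℝ) : Prop :=
  ∀ (S : Finset ℕ) (a : ℕ → ℝ), (∀ k ∈ S, 1 ≤ k) → (∀ k ∈ S, |a k| ≤ s₀) →
    Integrable (fun ω => exp (∑ k ∈ S, a k * ξ k ω)) P ∧
    exp ((∑ k ∈ S, a k ^ 2) / 2 - C * ∑ k ∈ S, |a k| ^ 3) ≤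
      ∫ ω, exp (∑ k ∈ S, a k * ξ k ω) ∂P ∧
    ∫ ω, exp (∑ k ∈ S, a k * ξ k ω) ∂P ≤
      exp ((∑ k ∈ S, a k ^ 2) / 2 + C * ∑ k ∈ S, |a k| ^ 3)

lemma good_of_iid {Ω : Type*} [MeasurableSpace Ω] {P : Measure Ω} [IsProbabilityMeasure P]
    {ξ : ℕ → Ω → ℝ} (hmeas : ∀ k, Measurable (ξ k)) (hind : iIndepFun ξ P)
    (hid : ∀ k, IdentDistrib (ξ k) (ξ 0) P P) (h0 : ∫ ω, ξ 0 ω ∂P = 0)
    (h2 : ∫ ω, ξ 0 ω ^ 2 ∂P = 1) {c : ℝ} (hc : 0 < c)
    (hint : Integrable (fun ω => exp (c * |ξ 0 ω|)) P) :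
    ∃ s₀ > 0, ∃ C ≥ 0, Good P (fun k => ξ (k - 1)) s₀ C := by
  obtain ⟨s₀, hs₀, C, hC, h⟩ := mgf_bounds (hmeas 0).aemeasurable hc hint h0 h2
  refine ⟨s₀, hs₀, C, hC, ?_⟩
  suffices hmain : ∀ (S : Finset ℕ) (a : ℕ → ℝ), (∀ k ∈ S, |a k| ≤ s₀) →
    Integrable (fun ω => exp (∑ k ∈ S, a k * ξ k ω)) P ∧
    exp ((∑ k ∈ S, a k ^ 2) / 2 - C * ∑ k ∈ S, |a k| ^ 3) ≤
      ∫ ω, exp (∑ k ∈ S, a k * ξ k ω) ∂P ∧
    ∫ ω, exp (∑ k ∈ S, a k * ξ k ω) ∂P ≤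
      exp ((∑ k ∈ S, a k ^ 2) / 2 + C * ∑ k ∈ S, |a k| ^ 3) by
    intro S a hS ha
    have hinj : Set.InjOn (fun k : ℕ => k - 1) S := by
      intro x hx y hy hxy
      have h1 := hS x hx
      have h2 := hS y hy
      simp only at hxy
      omega
    have hsum : ∀ f : ℕ → ℝ, ∑ i ∈ S.image (fun k : ℕ => k - 1), f (i + 1) = ∑ k ∈ S, f k := by
      intro f
      rw [Finset.sum_image hinj]
      refine Finset.sum_congr rfl fun k hk => ?_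
      rw [Nat.sub_add_cancel (hS k hk)]
    have hsum2 : ∀ ω, ∑ i ∈ S.image (fun k : ℕ => k - 1), a (i + 1) * ξ i ω =
        ∑ k ∈ S, a k * ξ (k - 1) ω := by
      intro ω
      rw [Finset.sum_image hinj]
      refine Finset.sum_congr rfl fun k hk => ?_
      rw [Nat.sub_add_cancel (hS k hk)]
    have := hmain (S.image (fun k : ℕ => k - 1)) (fun i => a (i + 1)) (by
      intro i hi
      obtain ⟨k, hk, rfl⟩ := Finset.mem_image.1 hi
      rw [Nat.sub_add_cancel (hS k hk)]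
      exact ha k hk)
    simp_rw [hsum2] at this
    rw [hsum (fun k => a k ^ 2), hsum (fun k => |a k| ^ 3)] at this
    exact this
  intro S a ha
  have hk : ∀ k, ∀ s : ℝ, |s| ≤ s₀ → Integrable (fun ω => exp (s * ξ k ω)) P ∧
      exp (s ^ 2 / 2 - C * |s| ^ 3) ≤ ∫ ω, exp (s * ξ k ω) ∂P ∧
      ∫ ω, exp (s * ξ k ω) ∂P ≤ exp (s ^ 2 / 2 + C * |s| ^ 3) := by
    intro k s hs
    have hid' : IdentDistrib (fun ω => exp (s * ξ k ω)) (fun ω => exp (s * ξ 0 ω)) P P :=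
      (hid k).comp (u := fun x => exp (s * x)) (by fun_prop)
    rw [hid'.integral_eq]
    exact ⟨hid'.integrable_iff.2 (h s hs).1, (h s hs).2⟩
  have hind' : iIndepFun (fun k ω => a k * ξ k ω) P :=
    hind.comp (fun k x => a k * x) (fun k => by fun_prop)
  have hmeas' : ∀ k, Measurable (fun ω => a k * ξ k ω) := fun k => (hmeas k).const_mul _
  have hmgf := hind'.mgf_sum (t := 1) hmeas' S
  have hint' := hind'.integrable_exp_mul_sum (t := 1) hmeas' (s := S) (by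
    intro k hkS
    simpa using (hk k (a k) (ha k hkS)).1)
  simp only [mgf, one_mul, Finset.sum_apply] at hmgf hint'
  refine ⟨hint', ?_, ?_⟩
  · rw [hmgf]
    have h3 : (∑ k ∈ S, a k ^ 2) / 2 - C * ∑ k ∈ S, |a k| ^ 3 =
        ∑ k ∈ S, (a k ^ 2 / 2 - C * |a k| ^ 3) := by
      rw [Finset.sum_sub_distrib, Finset.sum_div, Finset.mul_sum]
    rw [h3, exp_sum]
    exact Finset.prod_le_prod (fun k _ => (exp_pos _).le) (fun k hkS => (hk k (a k) (ha k hkS)).2.1)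
  · rw [hmgf]
    have h3 : (∑ k ∈ S, a k ^ 2) / 2 + C * ∑ k ∈ S, |a k| ^ 3 =
        ∑ k ∈ S, (a k ^ 2 / 2 + C * |a k| ^ 3) := by
      rw [Finset.sum_add_distrib, Finset.sum_div, Finset.mul_sum]
    rw [h3, exp_sum]
    refine Finset.prod_le_prod (fun k _ => integral_nonneg fun ω => (exp_pos _).le)
      (fun k hkS => (hk k (a k) (ha k hkS)).2.2)

end Pool.Agent.H38.LC
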