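import Mathlib

namespace Pool.Agent.H38.LC

open Real Finset

lemma abel_aux (α φ : ℝ) (m n : ℕ) (hmn : m ≤ n) :
    |2 * sin (α / 2) * ∑ k ∈ Ioc m n, cos (k * α - φ) / k -
      sin ((n + 1 / 2) * α - φ) / (n + 1)| ≤ 2 / (m + 1) - 1 / (n + 1) := by
  induction n, hmn using Nat.le_induction with
  | base =>
    simp only [Ioc_self, sum_empty, mul_zero, zero_sub, abs_neg]
    rw [abs_div, abs_of_pos (by positivity : (0 : ℝ) < (m : ℝ) + 1)]
    have h1 := abs_sin_le_one ((m + 1 / 2) * α - φ)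
    have h2 : (2 : ℝ) / (m + 1) - 1 / (m + 1) = 1 / (m + 1) := by ring
    rw [h2]
    gcongr
  | succ n hmn ih =>
    rw [sum_Ioc_succ_top (by omega)]
    have key : 2 * sin (α / 2) * cos (((n + 1 : ℕ) : ℝ) * α - φ) =
        sin ((((n + 1 : ℕ) : ℝ) + 1 / 2) * α - φ) - sin ((n + 1 / 2) * α - φ) := by
      have e1 : (((n + 1 : ℕ) : ℝ) + 1 / 2) * α - φ = (((n + 1 : ℕ) : ℝ) * α - φ) + α / 2 := by ring
      have e2 : ((n : ℝ) + 1 / 2) * α - φ = (((n + 1 : ℕ) : ℝ) * α - φ) - α / 2 := by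
        push_cast; ring
      rw [e1, e2, sin_add (((n + 1 : ℕ) : ℝ) * α - φ) (α / 2),
        sin_sub (((n + 1 : ℕ) : ℝ) * α - φ) (α / 2)]; ring
    set T' := sin ((((n + 1 : ℕ) : ℝ) + 1 / 2) * α - φ) with hT'
    set T := sin ((n + 1 / 2) * α - φ) with hT
    set W := ∑ k ∈ Ioc m n, cos (k * α - φ) / k with hW
    have h1 : 2 * sin (α / 2) * (W + cos (((n + 1 : ℕ) : ℝ) * α - φ) / ((n + 1 : ℕ) : ℝ)) -
        T' / (((n + 1 : ℕ) : ℝ) + 1) =
        (2 * sin (α / 2) * W - T / (n + 1)) + T' * (1 / (n + 1) - 1 / (n + 2)) := by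
      have h2 : 2 * sin (α / 2) * (cos (((n + 1 : ℕ) : ℝ) * α - φ) / ((n + 1 : ℕ) : ℝ)) =
        (T' - T) / (n + 1) := by
        rw [← mul_div_assoc, key]; push_cast; ring
      rw [mul_add, h2]
      push_cast
      have h3 : (n : ℝ) + 1 + 1 = n + 2 := by ring
      rw [h3]
      field_simp
      ring
    rw [h1]
    have h4 : |T'| ≤ 1 := abs_sin_le_one _
    have h5 : (0 : ℝ) ≤ 1 / (n + 1) - 1 / (n + 2) := by
      rw [sub_nonneg]; gcongr; norm_num
    calc |(2 * sin (α / 2) * W - T / (n + 1)) + T' * (1 / (n + 1) - 1 / (n + 2))|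
        ≤ |2 * sin (α / 2) * W - T / (n + 1)| + |T' * (1 / (n + 1) - 1 / (n + 2))| := abs_add_le _ _
      _ ≤ (2 / (m + 1) - 1 / (n + 1)) + 1 * (1 / (n + 1) - 1 / (n + 2)) := by
        rw [abs_mul, abs_of_nonneg h5]
        gcongr
      _ = 2 / (m + 1) - 1 / (((n + 1 : ℕ) : ℝ) + 1) := by push_cast; ring

/-- Abel summation bound. -/
lemma abel_cos (α φ : ℝ) (m n : ℕ) (hmn : m ≤ n) :
    |sin (α / 2)| * |∑ k ∈ Ioc m n, cos (k * α - φ) / k| ≤ 1 / (m + 1) := by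
  have h := abel_aux α φ m n hmn
  have h1 : |sin ((n + 1 / 2) * α - φ) / (n + 1)| ≤ 1 / (n + 1) := by
    rw [abs_div, abs_of_pos (by positivity : (0 : ℝ) < (n : ℝ) + 1)]
    have := abs_sin_le_one ((n + 1 / 2) * α - φ)
    gcongr
  have h2 : |2 * sin (α / 2) * ∑ k ∈ Ioc m n, cos (k * α - φ) / k| ≤ 2 / (m + 1) := by
    have h3 := abs_add_le (2 * sin (α / 2) * ∑ k ∈ Ioc m n, cos (k * α - φ) / k -
      sin ((n + 1 / 2) * α - φ) / (n + 1)) (sin ((n + 1 / 2) * α - φ) / (n + 1))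
    rw [sub_add_cancel] at h3
    linarith
  rw [abs_mul, abs_mul, abs_two] at h2
  have h4 : (2 : ℝ) / (m + 1) = 2 * (1 / (m + 1)) := by ring
  rw [h4] at h2
  linarith

lemma abel_cos' (α φ : ℝ) (m n : ℕ) (hmn : m ≤ n) (hs : 0 < |sin (α / 2)|) :
    |∑ k ∈ Ioc m n, cos (k * α - φ) / k| ≤ 1 / ((m + 1) * |sin (α / 2)|) := by
  have h := abel_cos α φ m n hmn
  rw [le_div_iff₀ (by positivity)]
  rw [le_div_iff₀ (by positivity)] at h
  linarith

lemma harm_le (m n : ℕ) (hm : 1 ≤ m) (hmn : m ≤ n) :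
    ∑ k ∈ Ioc m n, (1 : ℝ) / k ≤ log n - log m := by
  induction n, hmn using Nat.le_induction with
  | base => simp
  | succ n hmn ih =>
    rw [sum_Ioc_succ_top (by omega)]
    have hn : (0 : ℝ) < n := by exact_mod_cast (by omega : 0 < n)
    have h1 := Real.log_le_sub_one_of_pos (x := (n : ℝ) / ((n + 1 : ℕ) : ℝ)) (by positivity)
    rw [log_div hn.ne' (by positivity)] at h1
    have h2 : (n : ℝ) / ((n + 1 : ℕ) : ℝ) - 1 = -(1 / ((n + 1 : ℕ) : ℝ)) := by
      push_cast; field_simp; ring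
    rw [h2] at h1
    linarith

lemma le_harm (m n : ℕ) (hmn : m ≤ n) :
    log (n + 1) - log (m + 1) ≤ ∑ k ∈ Ioc m n, (1 : ℝ) / k := by
  induction n, hmn using Nat.le_induction with
  | base => simp
  | succ n hmn ih =>
    rw [sum_Ioc_succ_top (by omega)]
    have h1 := Real.log_le_sub_one_of_pos (x := (((n + 1 : ℕ) : ℝ) + 1) / ((n : ℝ) + 1))
      (by positivity)
    rw [log_div (by positivity) (by positivity)] at h1
    have h2 : (((n + 1 : ℕ) : ℝ) + 1) / ((n : ℝ) + 1) - 1 = 1 / ((n + 1 : ℕ) : ℝ) := by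
      push_cast; field_simp; ring
    rw [h2] at h1
    linarith

lemma harm_le' (n : ℕ) (hn : 1 ≤ n) : ∑ k ∈ Ioc 0 n, (1 : ℝ) / k ≤ 1 + log n := by
  have h1 : Ioc 0 n = insert 1 (Ioc 1 n) := by
    ext k; simp only [mem_Ioc, mem_insert]; omega
  rw [h1, sum_insert (by simp)]
  have := harm_le 1 n le_rfl hn
  simp at this ⊢
  linarith

lemma cube_sum (m n : ℕ) (hm : 1 ≤ m) (hmn : m ≤ n) :
    ∑ k ∈ Ioc m n, (1 / √(k : ℝ)) ^ 3 ≤ 2 / √(m : ℝ) - 2 / √(n : ℝ) := by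
  induction n, hmn using Nat.le_induction with
  | base => simp
  | succ n hmn ih =>
    rw [sum_Ioc_succ_top (by omega)]
    have hn : (0 : ℝ) < n := by exact_mod_cast (by omega : 0 < n)
    set x := √(n : ℝ) with hx
    set y := √((n + 1 : ℕ) : ℝ) with hy
    have hx0 : 0 < x := sqrt_pos.2 hn
    have hy0 : 0 < y := sqrt_pos.2 (by positivity)
    have hxy : x ≤ y := sqrt_le_sqrt (by push_cast; linarith)
    have hx2 : x ^ 2 = n := sq_sqrt hn.le
    have hy2 : y ^ 2 = n + 1 := by rw [hy, sq_sqrt (by positivity)]; push_cast; ring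
    have h1 : (1 / y) ^ 3 ≤ 2 / x - 2 / y := by
      have h2 : 2 / x - 2 / y = 2 * (y - x) / (x * y) := by field_simp
      have h3 : (y - x) * (y + x) = 1 := by nlinarith
      have h4 : y - x = 1 / (y + x) := by
        rw [eq_div_iff (by positivity)]; exact h3
      rw [h2, h4, div_pow, one_pow]
      rw [mul_one_div, div_div, div_le_div_iff₀ (by positivity) (by positivity)]
      have h5 : x * y ≤ y * y := by gcongr
      have h6 : (y + x) * (x * y) ≤ (y + y) * (y * y) := by gcongr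
      nlinarith
    linarith

lemma cube_sum' (m n : ℕ) (hm : 1 ≤ m) (hmn : m ≤ n) :
    ∑ k ∈ Ioc m n, (1 / √(k : ℝ)) ^ 3 ≤ 2 / √(m : ℝ) := by
  have := cube_sum m n hm hmn
  have h2 : 0 ≤ 2 / √(n : ℝ) := by positivity
  linarith

end Pool.Agent.H38.LC
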