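import Mathlib
import Pool.Agent.H38.LC.Combo
import Pool.Agent.H38.LC.Sums
import Pool.Agent.H38.LC.Disc

namespace Pool.Agent.H38.LC

open MeasureTheory ProbabilityTheory Real Finset Filter Topology

/-- coefficients -/
noncomputable def co {Ω : Type*} (ξ : ℕ → Ω → ℝ) (ω : Ω) (k : ℕ) : ℝ := ξ k ω / √(k : ℝ)

lemma sum_cos_le (m₀ n : ℕ) (h1 : 1 ≤ m₀) (hmn : m₀ ≤ n) (θ φ : ℝ) (hs : 0 < sin θ) :
    ∑ k ∈ Ioc m₀ n, cos (k * (2 * θ) - 2 * φ) / k ≤ 1 + log (1 / sin θ) := by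
  have hw1 : 1 ≤ 1 / sin θ := by
    rw [le_div_iff₀ hs, one_mul]; exact sin_le_one θ
  have hlog0 : 0 ≤ log (1 / sin θ) := log_nonneg hw1
  have hf1 : 1 ≤ ⌊1 / sin θ⌋₊ := Nat.le_floor (by simpa using hw1)
  have hflog : log (⌊1 / sin θ⌋₊ : ℝ) ≤ log (1 / sin θ) := by
    apply log_le_log
    · exact_mod_cast hf1
    · exact Nat.floor_le (by positivity)
  have htriv : ∀ a b : ℕ, ∑ k ∈ Ioc a b, cos (k * (2 * θ) - 2 * φ) / k ≤ ∑ k ∈ Ioc a b, (1 : ℝ) / k := by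
    intro a b
    apply sum_le_sum
    intro k _
    gcongr
    exact cos_le_one _
  set m := max m₀ ⌊1 / sin θ⌋₊ with hm
  have hm0m : m₀ ≤ m := le_max_left _ _
  have hlogm : log (m : ℝ) - log m₀ ≤ log (1 / sin θ) := by
    rcases le_total m₀ ⌊1 / sin θ⌋₊ with h | h
    · rw [hm, max_eq_right h]
      have : 0 ≤ log (m₀ : ℝ) := log_nonneg (by exact_mod_cast h1)
      linarith
    · rw [hm, max_eq_left h]; simpa using hlog0
  rcases le_total n m with hnm | hnm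
  · calc ∑ k ∈ Ioc m₀ n, cos (k * (2 * θ) - 2 * φ) / k ≤ ∑ k ∈ Ioc m₀ n, (1 : ℝ) / k := htriv _ _
      _ ≤ log n - log m₀ := harm_le m₀ n h1 hmn
      _ ≤ log m - log m₀ := by
        gcongr
        exact_mod_cast (by omega : 0 < n)
      _ ≤ 1 + log (1 / sin θ) := by linarith
  · have hsplit : ∑ k ∈ Ioc m₀ n, cos (k * (2 * θ) - 2 * φ) / k =
        ∑ k ∈ Ioc m₀ m, cos (k * (2 * θ) - 2 * φ) / k + ∑ k ∈ Ioc m n, cos (k * (2 * θ) - 2 * φ) / k := by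
      rw [← sum_union, Ioc_union_Ioc_eq_Ioc hm0m hnm]
      exact Ioc_disjoint_Ioc_of_le le_rfl
    rw [hsplit]
    have ha : ∑ k ∈ Ioc m₀ m, cos (k * (2 * θ) - 2 * φ) / k ≤ log (1 / sin θ) :=
      (htriv _ _).trans ((harm_le m₀ m h1 hm0m).trans hlogm)
    have hsin : sin (2 * θ / 2) = sin θ := by congr 1; ring
    have hb := abel_cos' (2 * θ) (2 * φ) m n hnm (by rw [hsin, abs_of_pos hs]; exact hs)
    rw [hsin, abs_of_pos hs] at hb
    have hc : 1 / (((m : ℝ) + 1) * sin θ) ≤ 1 := by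
      rw [div_le_one (by positivity)]
      have h2 := Nat.lt_floor_add_one (1 / sin θ)
      have h3 : (⌊1 / sin θ⌋₊ : ℝ) ≤ m := by exact_mod_cast le_max_right _ _
      have h4 : 1 / sin θ ≤ (m : ℝ) + 1 := by linarith
      rw [div_le_iff₀ hs] at h4
      exact h4
    have hd := (le_abs_self _).trans hb
    linarith

variable {Ω : Type*} [MeasurableSpace Ω] {P : Measure Ω} [IsProbabilityMeasure P]
  {ξ : ℕ → Ω → ℝ} {s₀ C : ℝ}

omit [IsProbabilityMeasure P] in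
lemma exp_two_R (hG : Good P ξ s₀ C) (hC : 0 ≤ C) (K₀ n : ℕ) (hK1 : 1 ≤ K₀)
    (hK : 2 / √(K₀ : ℝ) ≤ s₀) (hn : K₀ ≤ n) (θ φ : ℝ) (hs : 0 < sin θ) :
    Integrable (fun ω => exp (2 * R (co ξ ω) (Ioc K₀ n) θ φ)) P ∧
    ∫ ω, exp (2 * R (co ξ ω) (Ioc K₀ n) θ φ) ∂P ≤ exp (1 + 16 * C) * n * (1 / sin θ) := by
  set b : ℕ → ℝ := fun k => 2 * cos (k * θ - φ) / √(k : ℝ) with hb
  have hK₀ : (1 : ℝ) ≤ K₀ := by exact_mod_cast hK1
  have hbd : ∀ k ∈ Ioc K₀ n, |b k| ≤ 2 * (1 / √(k : ℝ)) := by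
    intro k hk
    rw [hb]
    simp only
    rw [abs_div, abs_of_nonneg (sqrt_nonneg _), abs_mul, abs_two, mul_one_div]
    gcongr
    have := abs_cos_le_one (k * θ - φ)
    linarith
  have hbs : ∀ k ∈ Ioc K₀ n, |b k| ≤ s₀ := by
    intro k hk
    refine (hbd k hk).trans ?_
    rw [mem_Ioc] at hk
    refine le_trans ?_ hK
    rw [mul_one_div]
    gcongr
    exact hk.1.le
  have heq : ∀ ω, 2 * R (co ξ ω) (Ioc K₀ n) θ φ = ∑ k ∈ Ioc K₀ n, b k * ξ k ω := by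
    intro ω
    rw [R, mul_sum]
    refine sum_congr rfl fun k _ => ?_
    rw [hb, co]; ring
  obtain ⟨h1, -, h3⟩ := hG (Ioc K₀ n) b (fun k hk => by rw [mem_Ioc] at hk; omega) hbs
  simp_rw [heq]
  refine ⟨h1, h3.trans ?_⟩
  have hcube : ∑ k ∈ Ioc K₀ n, |b k| ^ 3 ≤ 16 := by
    calc ∑ k ∈ Ioc K₀ n, |b k| ^ 3 ≤ ∑ k ∈ Ioc K₀ n, 8 * (1 / √(k : ℝ)) ^ 3 := by
          apply sum_le_sum
          intro k hk
          calc |b k| ^ 3 ≤ (2 * (1 / √(k : ℝ))) ^ 3 := by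
                apply pow_le_pow_left₀ (abs_nonneg _) (hbd k hk)
            _ = 8 * (1 / √(k : ℝ)) ^ 3 := by ring
      _ = 8 * ∑ k ∈ Ioc K₀ n, (1 / √(k : ℝ)) ^ 3 := by rw [mul_sum]
      _ ≤ 8 * (2 / √(K₀ : ℝ)) := by gcongr; exact cube_sum' K₀ n hK1 hn
      _ ≤ 8 * (2 / 1) := by
        gcongr
        rw [Real.one_le_sqrt]; exact hK₀
      _ = 16 := by norm_num
  have hsq : (∑ k ∈ Ioc K₀ n, b k ^ 2) / 2 ≤ log n + (1 + log (1 / sin θ)) := by
    have e1 : (∑ k ∈ Ioc K₀ n, b k ^ 2) / 2 = ∑ k ∈ Ioc K₀ n, (1 : ℝ) / k +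
        ∑ k ∈ Ioc K₀ n, cos (k * (2 * θ) - 2 * φ) / k := by
      rw [sum_div, ← sum_add_distrib]
      refine sum_congr rfl fun k hk => ?_
      rw [mem_Ioc] at hk
      have hk0 : (0 : ℝ) < k := by exact_mod_cast (by omega : 0 < k)
      rw [hb]
      simp only
      rw [div_pow, sq_sqrt hk0.le, mul_pow]
      have e2 : (k : ℝ) * (2 * θ) - 2 * φ = 2 * (k * θ - φ) := by ring
      rw [e2, cos_two_mul]
      field_simp
      ring
    rw [e1]
    have h4 := sum_cos_le K₀ n hK1 hn θ φ hs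
    have h5 := harm_le K₀ n hK1 hn
    have h6 : 0 ≤ log (K₀ : ℝ) := log_nonneg hK₀
    linarith
  have hn0 : (0 : ℝ) < n := by exact_mod_cast (by omega : 0 < n)
  calc exp ((∑ k ∈ Ioc K₀ n, b k ^ 2) / 2 + C * ∑ k ∈ Ioc K₀ n, |b k| ^ 3)
      ≤ exp ((log n + (1 + log (1 / sin θ))) + C * 16) := by gcongr
    _ = exp (1 + 16 * C) * n * (1 / sin θ) := by
      rw [exp_add, exp_add, exp_add, exp_log hn0, exp_log (by positivity), exp_add]
      ring_nf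

lemma grid_bad (hG : Good P ξ s₀ C) (hC : 0 ≤ C) (K₀ n : ℕ) (hK1 : 1 ≤ K₀)
    (hK : 2 / √(K₀ : ℝ) ≤ s₀) (hn : K₀ ≤ n) (N J : ℕ) (hN : 0 < N) (A : ℝ) :
    P.real (⋃ j ∈ range N, ⋃ l ∈ range (J + 1),
      {ω | A ≤ R (co ξ ω) (Ioc K₀ n) (grid N j) (dir J l)}) ≤
    (J + 1) * exp (-2 * A) * (exp (1 + 16 * C) * n) * (2 * N * (1 + log N)) := by
  have h1 : ∀ j ∈ range N, ∀ l ∈ range (J + 1),
      P.real {ω | A ≤ R (co ξ ω) (Ioc K₀ n) (grid N j) (dir J l)} ≤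
      exp (-2 * A) * (exp (1 + 16 * C) * n) * (1 / sin (grid N j)) := by
    intro j hj l _
    obtain ⟨h2, h3⟩ := exp_two_R hG hC K₀ n hK1 hK hn (grid N j) (dir J l)
      (grid_sin_pos N j (mem_range.1 hj))
    have h4 := measure_ge_le_exp_mul_mgf (μ := P) (t := 2)
      (X := fun ω => R (co ξ ω) (Ioc K₀ n) (grid N j) (dir J l)) A (by norm_num) h2
    refine h4.trans ?_
    rw [mul_assoc (exp (-2 * A))]
    gcongr
    exact h3
  calc P.real (⋃ j ∈ range N, ⋃ l ∈ range (J + 1),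
      {ω | A ≤ R (co ξ ω) (Ioc K₀ n) (grid N j) (dir J l)})
      ≤ ∑ j ∈ range N, P.real (⋃ l ∈ range (J + 1),
      {ω | A ≤ R (co ξ ω) (Ioc K₀ n) (grid N j) (dir J l)}) := measureReal_biUnion_finset_le _ _
    _ ≤ ∑ j ∈ range N, ∑ l ∈ range (J + 1),
      P.real {ω | A ≤ R (co ξ ω) (Ioc K₀ n) (grid N j) (dir J l)} :=
        sum_le_sum fun j _ => measureReal_biUnion_finset_le _ _
    _ ≤ ∑ j ∈ range N, ∑ l ∈ range (J + 1),
        exp (-2 * A) * (exp (1 + 16 * C) * n) * (1 / sin (grid N j)) :=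
        sum_le_sum fun j hj => sum_le_sum fun l hl => h1 j hj l hl
    _ = (J + 1) * exp (-2 * A) * (exp (1 + 16 * C) * n) * ∑ j ∈ range N, 1 / sin (grid N j) := by
        simp_rw [sum_const, card_range, nsmul_eq_mul]
        rw [mul_sum]
        refine sum_congr rfl fun j _ => ?_
        push_cast
        ring
    _ ≤ _ := by
        gcongr
        exact sum_inv_sin N hN



lemma tendsto_log_nat : Tendsto (fun n : ℕ => log (n : ℝ)) atTop atTop :=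
  tendsto_log_atTop.comp tendsto_natCast_atTop_atTop

lemma tendsto_exp_aux (c a b : ℝ) (hc : 0 < c) :
    Tendsto (fun x : ℝ => a * (exp (-c * x) * (b + x))) atTop (𝓝 0) := by
  have h1 : Tendsto (fun x : ℝ => exp (-c * x)) atTop (𝓝 0) := by
    have : Tendsto (fun x : ℝ => -c * x) atTop atBot :=
      tendsto_id.const_mul_atTop_of_neg (by linarith)
    exact tendsto_exp_atBot.comp this
  have h2 : Tendsto (fun x : ℝ => x * exp (-c * x)) atTop (𝓝 0) := by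
    have h3 := Real.tendsto_pow_mul_exp_neg_atTop_nhds_zero 1
    have h4 : Tendsto (fun x : ℝ => c * x) atTop atTop := tendsto_id.const_mul_atTop hc
    have h5 := (h3.comp h4).const_mul (1 / c)
    rw [mul_zero] at h5
    refine h5.congr fun x => ?_
    simp only [Function.comp, pow_one]
    rw [neg_mul]
    field_simp
  have h3 := ((h1.const_mul b).add h2).const_mul a
  rw [mul_zero, zero_add, mul_zero] at h3
  refine h3.congr fun x => ?_
  ring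

/-- **Upper bound.** -/
lemma upper (hG : Good P ξ s₀ C) (hs₀ : 0 < s₀) (hC : 0 ≤ C)
    (hint : ∀ k, Integrable (ξ k) P) {ε : ℝ} (hε : 0 < ε) :
    Tendsto (fun n : ℕ => P.real {ω | ∃ z : ℂ, ‖z‖ = 1 ∧
      (1 + ε) * log n < ‖pol (fun k => (co ξ ω k : ℂ)) (Ioc 0 n) z‖}) atTop (𝓝 0) := by
  -- parameters
  obtain ⟨K₀, hK1, hK⟩ : ∃ K₀ : ℕ, 1 ≤ K₀ ∧ 2 / √(K₀ : ℝ) ≤ s₀ := by
    refine ⟨⌈(2 / s₀) ^ 2⌉₊ + 1, by omega, ?_⟩
    rw [div_le_iff₀ (by positivity), mul_comm, ← div_le_iff₀ hs₀]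
    apply Real.le_sqrt_of_sq_le
    have := Nat.le_ceil ((2 / s₀) ^ 2)
    push_cast
    linarith
  set δ : ℝ := ε / (8 + 8 * ε) with hδ
  have hδ0 : 0 < δ := by positivity
  have hδ1 : δ < 1 := by rw [hδ, div_lt_one (by positivity)]; linarith
  have hδA : (1 + ε / 4) / (1 - δ) ^ 2 ≤ 1 + ε / 2 := by
    rw [div_le_iff₀ (by apply pow_pos; linarith)]
    have h1 : 1 - 2 * δ ≤ (1 - δ) ^ 2 := by nlinarith
    have h2 : δ * (8 + 8 * ε) = ε := by rw [hδ]; field_simp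
    nlinarith
  set J : ℕ := ⌈7 / δ⌉₊ with hJ
  have hJ' : 7 ≤ δ * J := by
    have := Nat.le_ceil (7 / δ)
    rw [div_le_iff₀ hδ0] at this
    linarith
  set W : Ω → ℝ := fun ω => ∑ k ∈ Ioc 0 K₀, |ξ k ω| with hW
  have hWint : Integrable W P := integrable_finsetSum _ fun k _ => (hint k).abs
  have hW0 : ∀ ω, 0 ≤ W ω := fun ω => sum_nonneg fun k _ => abs_nonneg _
  set c' : ℝ := (J + 1) * exp (1 + 16 * C) * (2 * (6 / δ)) with hc'
  set c'' : ℝ := 1 + log (6 / δ) with hc''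
  have hlim : Tendsto (fun n : ℕ => c' * (exp (-(ε / 2) * log n) * (c'' + log n)) +
      (∫ ω, W ω ∂P) / (ε / 2 * log n)) atTop (𝓝 0) := by
    have h1 := (tendsto_exp_aux (ε / 2) c' c'' (by positivity)).comp tendsto_log_nat
    have h2 : Tendsto (fun n : ℕ => (∫ ω, W ω ∂P) / (ε / 2 * log n)) atTop (𝓝 0) := by
      apply Tendsto.const_div_atTop
      exact tendsto_log_nat.const_mul_atTop (by positivity)
    have h3 := h1.add h2
    rw [add_zero] at h3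
    exact h3
  refine squeeze_zero' (Eventually.of_forall fun n => measureReal_nonneg) ?_ hlim
  filter_upwards [eventually_ge_atTop (max K₀ 2)] with n hn
  have hnK : K₀ ≤ n := (le_max_left _ _).trans hn
  have hn2 : 2 ≤ n := (le_max_right _ _).trans hn
  have hnr : (2 : ℝ) ≤ n := by exact_mod_cast hn2
  have hn0 : (0 : ℝ) < n := by linarith
  have hlog : 0 < log (n : ℝ) := log_pos (by linarith)
  set N : ℕ := ⌈5 * n / δ⌉₊ with hN
  have hN1 : 5 * n ≤ δ * N := by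
    have := Nat.le_ceil (5 * (n : ℝ) / δ)
    rw [div_le_iff₀ hδ0] at this
    linarith
  have hN0 : 0 < N := Nat.ceil_pos.2 (by positivity)
  have hNr : (0 : ℝ) < N := by exact_mod_cast hN0
  have hN2 : (N : ℝ) ≤ 6 / δ * n := by
    have h1 := (Nat.ceil_lt_add_one (by positivity : 0 ≤ 5 * (n : ℝ) / δ)).le
    have h2 : 1 ≤ (n : ℝ) / δ := by rw [le_div_iff₀ hδ0]; linarith
    calc (N : ℝ) ≤ 5 * n / δ + 1 := h1
      _ ≤ 5 * n / δ + n / δ := by gcongr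
      _ = 6 / δ * n := by ring
  set A : ℝ := (1 + ε / 4) * log n with hA
  have hbad := grid_bad hG hC K₀ n hK1 hK hnK N J hN0 A
  have hbad2 : (J + 1) * exp (-2 * A) * (exp (1 + 16 * C) * n) * (2 * N * (1 + log N)) ≤
      c' * (exp (-(ε / 2) * log n) * (c'' + log n)) := by
    have h1 : 1 + log (N : ℝ) ≤ c'' + log n := by
      rw [hc'', add_assoc, ← log_mul (by positivity) (by positivity)]
      gcongr
    have h2 : exp (-2 * A) * (n : ℝ) * n = exp (-(ε / 2) * log n) := by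
      have h5 : exp (-2 * A) * exp (log (n : ℝ)) * exp (log (n : ℝ)) =
          exp (-(ε / 2) * log n) := by
        rw [← exp_add, ← exp_add]
        congr 1
        rw [hA]; ring
      rwa [exp_log hn0] at h5
    have h3 : 0 ≤ 1 + log (N : ℝ) := by
      have : 0 ≤ log (N : ℝ) := log_nonneg (by exact_mod_cast hN0)
      linarith
    calc (J + 1) * exp (-2 * A) * (exp (1 + 16 * C) * n) * (2 * N * (1 + log N))
        ≤ (J + 1) * exp (-2 * A) * (exp (1 + 16 * C) * n) * (2 * (6 / δ * n) * (c'' + log n)) := by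
          gcongr
      _ = c' * ((exp (-2 * A) * (n : ℝ) * n) * (c'' + log n)) := by rw [hc']; ring
      _ = _ := by rw [h2]
  have hWm : P.real {ω | ε / 2 * log n ≤ W ω} ≤ (∫ ω, W ω ∂P) / (ε / 2 * log n) := by
    rw [le_div_iff₀ (by positivity), mul_comm]
    exact mul_meas_ge_le_integral_of_nonneg (Eventually.of_forall hW0) hWint _
  have hsub : {ω | ∃ z : ℂ, ‖z‖ = 1 ∧
      (1 + ε) * log n < ‖pol (fun k => (co ξ ω k : ℂ)) (Ioc 0 n) z‖} ⊆
      (⋃ j ∈ range N, ⋃ l ∈ range (J + 1),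
        {ω | A ≤ R (co ξ ω) (Ioc K₀ n) (grid N j) (dir J l)}) ∪ {ω | ε / 2 * log n ≤ W ω} := by
    intro ω hω
    obtain ⟨z, hz, hzω⟩ := hω
    by_contra hcon
    rw [Set.mem_union, not_or] at hcon
    obtain ⟨hc1, hc2⟩ := hcon
    simp only [Set.mem_iUnion, not_exists, Set.mem_ofPred_eq, not_le, mem_range] at hc1 hc2
    have h1 : ‖pol (fun k => (co ξ ω k : ℂ)) (Ioc K₀ n) z‖ ≤ A / (1 - δ) ^ 2 :=
      disc (co ξ ω) (Ioc K₀ n) n (by omega) (fun k hk => (mem_Ioc.1 hk).2) δ hδ0 hδ1 N J hN1 hJ' A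
        (fun j hj l hl => (hc1 j hj l (by omega)).le) z hz
    have h2 : ‖pol (fun k => (co ξ ω k : ℂ)) (Ioc 0 K₀) z‖ ≤ W ω := by
      rw [pol, hW]
      refine (norm_sum_le _ _).trans (sum_le_sum fun k hk => ?_)
      rw [norm_mul, norm_pow, hz, one_pow, mul_one, Complex.norm_real, Real.norm_eq_abs, co, abs_div]
      rw [mem_Ioc] at hk
      have hk1 : (1 : ℝ) ≤ k := by exact_mod_cast hk.1
      have : 1 ≤ |√(k : ℝ)| := by
        rw [abs_of_nonneg (sqrt_nonneg _), Real.one_le_sqrt]; exact hk1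
      exact div_le_self (abs_nonneg _) this
    have h3 : pol (fun k => (co ξ ω k : ℂ)) (Ioc 0 n) z =
        pol (fun k => (co ξ ω k : ℂ)) (Ioc 0 K₀) z + pol (fun k => (co ξ ω k : ℂ)) (Ioc K₀ n) z := by
      rw [pol, pol, pol, ← sum_union, Ioc_union_Ioc_eq_Ioc (by omega) hnK]
      exact Ioc_disjoint_Ioc_of_le le_rfl
    have h4 : A / (1 - δ) ^ 2 ≤ (1 + ε / 2) * log n := by
      rw [hA, mul_div_right_comm]
      gcongr
    have h5 := norm_add_le (pol (fun k => (co ξ ω k : ℂ)) (Ioc 0 K₀) z)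
      (pol (fun k => (co ξ ω k : ℂ)) (Ioc K₀ n) z)
    rw [← h3] at h5
    linarith
  calc P.real {ω | ∃ z : ℂ, ‖z‖ = 1 ∧
      (1 + ε) * log n < ‖pol (fun k => (co ξ ω k : ℂ)) (Ioc 0 n) z‖}
      ≤ P.real ((⋃ j ∈ range N, ⋃ l ∈ range (J + 1),
        {ω | A ≤ R (co ξ ω) (Ioc K₀ n) (grid N j) (dir J l)}) ∪ {ω | ε / 2 * log n ≤ W ω}) :=
        measureReal_mono hsub
    _ ≤ P.real (⋃ j ∈ range N, ⋃ l ∈ range (J + 1),
        {ω | A ≤ R (co ξ ω) (Ioc K₀ n) (grid N j) (dir J l)}) + P.real {ω | ε / 2 * log n ≤ W ω} :=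
        measureReal_union_le _ _
    _ ≤ _ := by
        refine add_le_add (hbad.trans hbad2) hWm

end Pool.Agent.H38.LC
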