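import Mathlib
import Pool.Agent.H38.LC.Upper

namespace Pool.Agent.H38.LC

open MeasureTheory ProbabilityTheory Real Finset Filter Topology

/-- harmonic sum over `(m, n]` -/
noncomputable def H (m n : ℕ) : ℝ := ∑ k ∈ Ioc m n, (1 : ℝ) / k

/-- real part of the block polynomial -/
noncomputable def Yc {Ω : Type*} (ξ : ℕ → Ω → ℝ) (m n : ℕ) (θ : ℝ) (ω : Ω) : ℝ :=
  ∑ k ∈ Ioc m n, cos (k * θ) * co ξ ω k

section mgf

variable {Ω : Type*} [MeasurableSpace Ω] {P : Measure Ω} {ξ : ℕ → Ω → ℝ} {s₀ C : ℝ}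

lemma LM (hG : Good P ξ s₀ C) (hC : 0 ≤ C) (m n : ℕ) (hm : 1 ≤ m) (hmn : m ≤ n) (κ : ℝ)
    (hκ : 0 ≤ κ) (hκs : κ / √(m : ℝ) ≤ s₀) (f : ℕ → ℝ) (hf : ∀ k, |f k| ≤ κ) :
    Integrable (fun ω => exp (∑ k ∈ Ioc m n, f k * co ξ ω k)) P ∧
    exp ((∑ k ∈ Ioc m n, f k ^ 2 / k) / 2 - C * κ ^ 3 * (2 / √(m : ℝ))) ≤
      ∫ ω, exp (∑ k ∈ Ioc m n, f k * co ξ ω k) ∂P ∧
    ∫ ω, exp (∑ k ∈ Ioc m n, f k * co ξ ω k) ∂P ≤
      exp ((∑ k ∈ Ioc m n, f k ^ 2 / k) / 2 + C * κ ^ 3 * (2 / √(m : ℝ))) := by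
  have hm0 : (0 : ℝ) < m := by exact_mod_cast hm
  set c : ℕ → ℝ := fun k => f k / √(k : ℝ) with hc
  have hbd : ∀ k, |c k| ≤ κ * (1 / √(k : ℝ)) := by
    intro k
    rw [hc]; simp only
    rw [abs_div, abs_of_nonneg (sqrt_nonneg _), mul_one_div]
    gcongr
    exact hf k
  have hbs : ∀ k ∈ Ioc m n, |c k| ≤ s₀ := by
    intro k hk
    rw [mem_Ioc] at hk
    refine (hbd k).trans (le_trans ?_ hκs)
    rw [mul_one_div]
    gcongr
    exact hk.1.le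
  have heq : ∀ ω, ∑ k ∈ Ioc m n, f k * co ξ ω k = ∑ k ∈ Ioc m n, c k * ξ k ω := by
    intro ω
    refine sum_congr rfl fun k _ => ?_
    rw [hc, co]; ring
  have hsq : ∑ k ∈ Ioc m n, c k ^ 2 = ∑ k ∈ Ioc m n, f k ^ 2 / k := by
    refine sum_congr rfl fun k hk => ?_
    rw [hc]; simp only
    rw [div_pow, sq_sqrt (Nat.cast_nonneg k)]
  have hcube : ∑ k ∈ Ioc m n, |c k| ^ 3 ≤ κ ^ 3 * (2 / √(m : ℝ)) := by
    calc ∑ k ∈ Ioc m n, |c k| ^ 3 ≤ ∑ k ∈ Ioc m n, κ ^ 3 * (1 / √(k : ℝ)) ^ 3 := by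
          apply sum_le_sum
          intro k _
          rw [← mul_pow]
          exact pow_le_pow_left₀ (abs_nonneg _) (hbd k) 3
      _ = κ ^ 3 * ∑ k ∈ Ioc m n, (1 / √(k : ℝ)) ^ 3 := by rw [mul_sum]
      _ ≤ κ ^ 3 * (2 / √(m : ℝ)) := by gcongr; exact cube_sum' m n hm hmn
  obtain ⟨h1, h2, h3⟩ := hG (Ioc m n) c (fun k hk => by rw [mem_Ioc] at hk; omega) hbs
  simp_rw [heq]
  rw [hsq] at h2 h3
  have hCc : C * ∑ k ∈ Ioc m n, |c k| ^ 3 ≤ C * κ ^ 3 * (2 / √(m : ℝ)) := by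
    rw [mul_assoc]; gcongr
  refine ⟨h1, le_trans ?_ h2, h3.trans ?_⟩
  · apply exp_le_exp.2; linarith
  · apply exp_le_exp.2; linarith

end mgf

/-! ### trigonometric variances and covariances -/

lemma sin_half_lower {θ : ℝ} (h1 : 1 / 2 ≤ θ) (h2 : θ ≤ 1) : 1 / π ≤ sin θ := by
  have h3 := Real.mul_le_sin (x := θ) (by linarith) (by linarith [Real.pi_gt_three])
  have h4 : 2 / π * (1 / 2) ≤ 2 / π * θ := by gcongr
  calc 1 / π = 2 / π * (1 / 2) := by ring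
    _ ≤ _ := h4
    _ ≤ _ := h3

lemma var_bound (m n : ℕ) (hm : 1 ≤ m) (hmn : m ≤ n) {θ : ℝ} (h1 : 1 / 2 ≤ θ) (h2 : θ ≤ 1) :
    |∑ k ∈ Ioc m n, cos (k * θ) ^ 2 / k - H m n / 2| ≤ 2 / m := by
  have hm0 : (0 : ℝ) < m := by exact_mod_cast hm
  have e : ∑ k ∈ Ioc m n, cos (k * θ) ^ 2 / k - H m n / 2 =
      (∑ k ∈ Ioc m n, cos (k * (2 * θ) - 0) / k) / 2 := by
    rw [H, sum_div, sum_div, ← sum_sub_distrib]
    refine sum_congr rfl fun k _ => ?_
    have e2 : (k : ℝ) * (2 * θ) - 0 = 2 * (k * θ) := by ring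
    rw [e2, cos_two_mul]; ring
  have hs := sin_half_lower h1 h2
  have hs0 : 0 < sin θ := lt_of_lt_of_le (by positivity) hs
  have hsin : sin (2 * θ / 2) = sin θ := by congr 1; ring
  have hb := abel_cos' (2 * θ) 0 m n hmn (by rw [hsin, abs_of_pos hs0]; exact hs0)
  rw [hsin, abs_of_pos hs0] at hb
  rw [e, abs_div, abs_two, div_le_iff₀ (by norm_num)]
  refine hb.trans ?_
  calc 1 / (((m : ℝ) + 1) * sin θ) ≤ 1 / ((m : ℝ) * (1 / π)) := by
        gcongr; linarith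
    _ = π / m := by field_simp
    _ ≤ 4 / m := by gcongr; exact Real.pi_le_four
    _ = 2 / m * 2 := by ring

lemma cov_bound (m n : ℕ) (hm : 1 ≤ m) (hmn : m ≤ n) {θ θ' : ℝ} (h1 : 1 / 2 ≤ θ) (h2 : θ ≤ 1)
    (h1' : 1 / 2 ≤ θ') (h2' : θ' ≤ 1) (hne : θ ≠ θ') :
    |∑ k ∈ Ioc m n, cos (k * θ) * cos (k * θ') / k| ≤ 4 / (m * |θ - θ'|) := by
  have hm0 : (0 : ℝ) < m := by exact_mod_cast hm
  have hd : 0 < |θ - θ'| := abs_pos.2 (sub_ne_zero.2 hne)
  have hd1 : |θ - θ'| ≤ 1 / 2 := by rw [abs_le]; constructor <;> linarith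
  have e : ∑ k ∈ Ioc m n, cos (k * θ) * cos (k * θ') / k =
      (∑ k ∈ Ioc m n, cos (k * |θ - θ'| - 0) / k + ∑ k ∈ Ioc m n, cos (k * (θ + θ') - 0) / k) / 2 := by
    rw [← sum_add_distrib, sum_div]
    refine sum_congr rfl fun k _ => ?_
    have e2 : cos ((k : ℝ) * |θ - θ'| - 0) = cos (k * θ - k * θ') := by
      rw [sub_zero]
      have : (k : ℝ) * |θ - θ'| = |k * θ - k * θ'| := by
        rw [← mul_sub, abs_mul, abs_of_nonneg (Nat.cast_nonneg k : (0 : ℝ) ≤ k)]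
      rw [this, cos_abs]
    have e3 : cos ((k : ℝ) * (θ + θ') - 0) = cos (k * θ + k * θ') := by
      congr 1; ring
    rw [e2, e3, cos_sub, cos_add]; ring
  -- first sum
  have hsd : |θ - θ'| / π ≤ sin (|θ - θ'| / 2) := by
    have h3 := Real.mul_le_sin (x := |θ - θ'| / 2) (by positivity)
      (by linarith [Real.pi_gt_three])
    calc |θ - θ'| / π = 2 / π * (|θ - θ'| / 2) := by ring
      _ ≤ _ := h3
  have hsd0 : 0 < sin (|θ - θ'| / 2) := lt_of_lt_of_le (by positivity) hsd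
  have hb1 := abel_cos' (|θ - θ'|) 0 m n hmn (by rw [abs_of_pos hsd0]; exact hsd0)
  rw [abs_of_pos hsd0] at hb1
  have hb1' : 1 / (((m : ℝ) + 1) * sin (|θ - θ'| / 2)) ≤ 4 / (m * |θ - θ'|) := by
    calc 1 / (((m : ℝ) + 1) * sin (|θ - θ'| / 2)) ≤ 1 / ((m : ℝ) * (|θ - θ'| / π)) := by
          gcongr; linarith
      _ = π / (m * |θ - θ'|) := by field_simp
      _ ≤ 4 / (m * |θ - θ'|) := by gcongr; exact Real.pi_le_four
  -- second sum
  have hss := sin_half_lower (θ := (θ + θ') / 2) (by linarith) (by linarith)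
  have hss0 : 0 < sin ((θ + θ') / 2) := lt_of_lt_of_le (by positivity) hss
  have hb2 := abel_cos' (θ + θ') 0 m n hmn (by rw [abs_of_pos hss0]; exact hss0)
  rw [abs_of_pos hss0] at hb2
  have hb2' : 1 / (((m : ℝ) + 1) * sin ((θ + θ') / 2)) ≤ 4 / (m * |θ - θ'|) := by
    calc 1 / (((m : ℝ) + 1) * sin ((θ + θ') / 2)) ≤ 1 / ((m : ℝ) * (1 / π)) := by
          gcongr; linarith
      _ = π / (m * 1) := by field_simp
      _ ≤ 4 / (m * |θ - θ'|) := by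
        gcongr
        · exact Real.pi_le_four
        · linarith
  rw [e, abs_div, abs_two, div_le_iff₀ (by norm_num)]
  calc |∑ k ∈ Ioc m n, cos (k * |θ - θ'| - 0) / k + ∑ k ∈ Ioc m n, cos (k * (θ + θ') - 0) / k|
      ≤ |∑ k ∈ Ioc m n, cos (k * |θ - θ'| - 0) / k| + |∑ k ∈ Ioc m n, cos (k * (θ + θ') - 0) / k| :=
        abs_add_le _ _
    _ ≤ 4 / (m * |θ - θ'|) + 4 / (m * |θ - θ'|) := by
        gcongr
        · exact hb1.trans hb1'
        · exact hb2.trans hb2'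
    _ = 4 / (m * |θ - θ'|) * 2 := by ring

/-! ### block boundaries -/

/-- block boundaries `⌊n^{q/K}⌋` -/
noncomputable def bb (K n q : ℕ) : ℕ := ⌊exp (q * (log n / K))⌋₊

section blocks

variable {K n : ℕ}

lemma ell_nonneg (n K : ℕ) : 0 ≤ log (n : ℝ) / K := by
  have : 0 ≤ log (n : ℝ) := log_natCast_nonneg n
  positivity

lemma bb_one_le (K n q : ℕ) : 1 ≤ bb K n q := by
  apply Nat.le_floor
  rw [Nat.cast_one]
  apply Real.one_le_exp
  have := ell_nonneg n K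
  positivity

lemma bb_le (K n q : ℕ) : (bb K n q : ℝ) ≤ exp (q * (log n / K)) := Nat.floor_le (exp_pos _).le

lemma lt_bb (K n q : ℕ) : exp (q * (log n / K)) < bb K n q + 1 := Nat.lt_floor_add_one _

lemma half_le_bb (K n q : ℕ) : exp (q * (log n / K)) / 2 ≤ bb K n q := by
  have h1 := lt_bb K n q
  have h2 : (1 : ℝ) ≤ bb K n q := by exact_mod_cast bb_one_le K n q
  linarith

lemma bb_mono (K n : ℕ) {q r : ℕ} (h : q ≤ r) : bb K n q ≤ bb K n r := by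
  apply Nat.floor_le_floor
  apply exp_le_exp.2
  have := ell_nonneg n K
  gcongr

lemma bb_top (hK : 1 ≤ K) (hn : 1 ≤ n) : bb K n K = n := by
  have hK0 : (K : ℝ) ≠ 0 := by positivity
  have hn0 : (0 : ℝ) < n := by exact_mod_cast hn
  rw [bb, mul_div_cancel₀ _ hK0, exp_log hn0, Nat.floor_natCast]

lemma bb_le_n (hK : 1 ≤ K) (hn : 1 ≤ n) {q : ℕ} (hq : q ≤ K) : bb K n q ≤ n := by
  calc bb K n q ≤ bb K n K := bb_mono K n hq
    _ = n := bb_top hK hn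

lemma log_bb_le (K n q : ℕ) : log (bb K n q : ℝ) ≤ q * (log n / K) := by
  have h2 : (0 : ℝ) < bb K n q := by exact_mod_cast bb_one_le K n q
  rw [log_le_iff_le_exp h2]
  exact bb_le K n q

lemma le_log_bb (K n q : ℕ) : q * (log n / K) - 1 ≤ log (bb K n q : ℝ) := by
  have h2 : (0 : ℝ) < bb K n q := by exact_mod_cast bb_one_le K n q
  rw [le_log_iff_exp_le h2]
  refine le_trans ?_ (half_le_bb K n q)
  rw [exp_sub]
  gcongr
  linarith [Real.add_one_le_exp (1 : ℝ)]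

lemma H_block_le (K n q : ℕ) : H (bb K n q) (bb K n (q + 1)) ≤ log n / K + 1 := by
  have h1 := harm_le (bb K n q) (bb K n (q + 1)) (bb_one_le _ _ _) (bb_mono K n (by omega))
  have h2 := log_bb_le K n (q + 1)
  have h3 := le_log_bb K n q
  rw [H]
  push_cast at h2
  linarith

lemma H_le (hK : 1 ≤ K) (hn : 1 ≤ n) {q : ℕ} (hq : q ≤ K) : H (bb K n q) n ≤ log n := by
  have h1 := harm_le (bb K n q) n (bb_one_le _ _ _) (bb_le_n hK hn hq)
  have h2 : 0 ≤ log (bb K n q : ℝ) := log_nonneg (by exact_mod_cast bb_one_le K n q)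
  rw [H]; linarith

lemma log_bb_add_one_le (K n q : ℕ) : log ((bb K n q : ℝ) + 1) ≤ q * (log n / K) + 1 := by
  have h2 : (0 : ℝ) < bb K n q := by exact_mod_cast bb_one_le K n q
  rw [log_le_iff_le_exp (by linarith)]
  have h3 := bb_le K n q
  have h4 : (1 : ℝ) ≤ exp (q * (log n / K)) := by
    apply Real.one_le_exp
    have := ell_nonneg n K
    positivity
  rw [exp_add]
  have h5 := Real.add_one_le_exp (1 : ℝ)
  nlinarith [exp_pos (q * (log n / K))]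

lemma le_H_first (K n : ℕ) {p : ℕ} (hp : 1 ≤ p) :
    (p - 1 : ℝ) * (log n / K) - 1 ≤ H (bb K n 1) (bb K n p) := by
  have h1 := le_harm (bb K n 1) (bb K n p) (bb_mono K n hp)
  have h2 := log_bb_add_one_le K n 1
  have h3 : p * (log n / K) ≤ log ((bb K n p : ℝ) + 1) := by
    rw [le_log_iff_exp_le (by positivity)]
    exact (lt_bb K n p).le
  rw [H]
  push_cast at h2
  linarith

lemma H_add {a b c : ℕ} (hab : a ≤ b) (hbc : b ≤ c) : H a c = H a b + H b c := by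
  rw [H, H, H, ← sum_union, Ioc_union_Ioc_eq_Ioc hab hbc]
  exact Ioc_disjoint_Ioc_of_le le_rfl

end blocks

lemma Yc_add {Ω : Type*} (ξ : ℕ → Ω → ℝ) {a b c : ℕ} (hab : a ≤ b) (hbc : b ≤ c) (θ : ℝ) (ω : Ω) :
    Yc ξ a c θ ω = Yc ξ a b θ ω + Yc ξ b c θ ω := by
  rw [Yc, Yc, Yc, ← sum_union, Ioc_union_Ioc_eq_Ioc hab hbc]
  exact Ioc_disjoint_Ioc_of_le le_rfl

lemma Yc_split {Ω : Type*} (ξ : ℕ → Ω → ℝ) {K n : ℕ} (hK : 1 ≤ K) (hn : 1 ≤ n) (θ : ℝ) (ω : Ω)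
    (p : ℕ) (hp : 1 ≤ p) (hpK : p ≤ K) :
    Yc ξ (bb K n 1) n θ ω = ∑ q ∈ Ico 1 p, Yc ξ (bb K n q) (bb K n (q + 1)) θ ω +
      Yc ξ (bb K n p) n θ ω := by
  induction p, hp using Nat.le_induction with
  | base => simp
  | succ p hp ih =>
    rw [ih (by omega), sum_Ico_succ_top hp, add_assoc]
    congr 1
    exact Yc_add ξ (bb_mono K n (by omega)) (bb_le_n hK hn hpK) θ ω


/-! ### The truncated exponential -/

section trunc

variable {Ω : Type*} [MeasurableSpace Ω] {P : Measure Ω} [IsProbabilityMeasure P]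
  {ξ : ℕ → Ω → ℝ} {s₀ C : ℝ}

/-- the truncated exponential functional -/
noncomputable def GG (ξ : ℕ → Ω → ℝ) (l η : ℝ) (K n : ℕ) (θ : ℝ) (ω : Ω) : ℝ :=
  if (∀ q ∈ Ico 1 K, Yc ξ (bb K n q) (bb K n (q + 1)) θ ω ≤ l * (log n / K) / 2 + η * log n) ∧
    l * H (bb K n 1) n / 2 - η * log n ≤ Yc ξ (bb K n 1) n θ ω
  then exp (l * Yc ξ (bb K n 1) n θ ω) else 0

omit [MeasurableSpace Ω] in
lemma GG_nonneg (l η : ℝ) (K n : ℕ) (θ : ℝ) (ω : Ω) : 0 ≤ GG ξ l η K n θ ω := by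
  rw [GG]; split_ifs
  · exact (exp_pos _).le
  · exact le_rfl

omit [MeasurableSpace Ω] in
lemma GG_le (l η : ℝ) (K n : ℕ) (θ : ℝ) (ω : Ω) :
    GG ξ l η K n θ ω ≤ exp (l * Yc ξ (bb K n 1) n θ ω) := by
  rw [GG]; split_ifs
  · exact le_rfl
  · exact (exp_pos _).le

omit [MeasurableSpace Ω] in
lemma GG_ne_zero (l η : ℝ) (K n : ℕ) (θ : ℝ) (ω : Ω) (h : GG ξ l η K n θ ω ≠ 0) :
    l * H (bb K n 1) n / 2 - η * log n ≤ Yc ξ (bb K n 1) n θ ω := by
  rw [GG] at h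
  by_contra hcon
  apply h
  rw [if_neg]
  exact fun h' => hcon h'.2

lemma Yc_meas (hm : ∀ k, Measurable (ξ k)) (m n : ℕ) (θ : ℝ) : Measurable (Yc ξ m n θ) := by
  unfold Yc co
  fun_prop

lemma GG_meas (hm : ∀ k, Measurable (ξ k)) (l η : ℝ) (K n : ℕ) (θ : ℝ) :
    Measurable (GG ξ l η K n θ) := by
  have h1 : MeasurableSet {ω | ∀ q ∈ Ico 1 K, Yc ξ (bb K n q) (bb K n (q + 1)) θ ω ≤
      l * (log n / K) / 2 + η * log n} := by
    have : {ω | ∀ q ∈ Ico 1 K, Yc ξ (bb K n q) (bb K n (q + 1)) θ ω ≤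
        l * (log n / K) / 2 + η * log n} = ⋂ q ∈ Ico 1 K,
        {ω | Yc ξ (bb K n q) (bb K n (q + 1)) θ ω ≤ l * (log n / K) / 2 + η * log n} := by
      ext ω; simp
    rw [this]
    exact Finset.measurableSet_biInter _ fun q _ =>
      measurableSet_le (Yc_meas hm _ _ _) measurable_const
  have h2 : MeasurableSet {ω | l * H (bb K n 1) n / 2 - η * log n ≤ Yc ξ (bb K n 1) n θ ω} :=
    measurableSet_le measurable_const (Yc_meas hm _ _ _)
  have h3 : MeasurableSet {ω | (∀ q ∈ Ico 1 K, Yc ξ (bb K n q) (bb K n (q + 1)) θ ω ≤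
      l * (log n / K) / 2 + η * log n) ∧
      l * H (bb K n 1) n / 2 - η * log n ≤ Yc ξ (bb K n 1) n θ ω} := h1.inter h2
  unfold GG
  exact Measurable.ite h3 (measurable_const.mul (Yc_meas hm _ _ _)).exp measurable_const

omit [MeasurableSpace Ω] in
lemma exp_le_GG (l η : ℝ) (hη : 0 ≤ η) (K n : ℕ) (θ : ℝ) (ω : Ω) :
    exp (l * Yc ξ (bb K n 1) n θ ω) ≤ GG ξ l η K n θ ω +
      (∑ q ∈ Ico 1 K, exp (-(η * (l * (log n / K) / 2 + η * log n))) *
        exp (l * Yc ξ (bb K n 1) n θ ω + η * Yc ξ (bb K n q) (bb K n (q + 1)) θ ω) +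
      exp (η * (l * H (bb K n 1) n / 2 - η * log n)) *
        exp ((l - η) * Yc ξ (bb K n 1) n θ ω)) := by
  set Y := Yc ξ (bb K n 1) n θ ω
  have hnn : 0 ≤ ∑ q ∈ Ico 1 K, exp (-(η * (l * (log n / K) / 2 + η * log n))) *
        exp (l * Y + η * Yc ξ (bb K n q) (bb K n (q + 1)) θ ω) := by positivity
  have hnn2 : 0 ≤ exp (η * (l * H (bb K n 1) n / 2 - η * log n)) * exp ((l - η) * Y) := by
    positivity
  have hnn3 := GG_nonneg (ξ := ξ) l η K n θ ω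
  by_cases h1 : ∀ q ∈ Ico 1 K, Yc ξ (bb K n q) (bb K n (q + 1)) θ ω ≤
      l * (log n / K) / 2 + η * log n
  · by_cases h2 : l * H (bb K n 1) n / 2 - η * log n ≤ Y
    · have : GG ξ l η K n θ ω = exp (l * Y) := by
        rw [GG, if_pos ⟨h1, h2⟩]
      rw [this]; linarith
    · push Not at h2
      have : exp (l * Y) ≤ exp (η * (l * H (bb K n 1) n / 2 - η * log n)) * exp ((l - η) * Y) := by
        rw [← exp_add]
        apply exp_le_exp.2
        have : η * Y ≤ η * (l * H (bb K n 1) n / 2 - η * log n) := by gcongr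
        linarith
      linarith
  · push Not at h1
    obtain ⟨q, hq, hq2⟩ := h1
    have h3 : exp (l * Y) ≤ exp (-(η * (l * (log n / K) / 2 + η * log n))) *
        exp (l * Y + η * Yc ξ (bb K n q) (bb K n (q + 1)) θ ω) := by
      rw [← exp_add]
      apply exp_le_exp.2
      have : η * (l * (log n / K) / 2 + η * log n) ≤
        η * Yc ξ (bb K n q) (bb K n (q + 1)) θ ω := by gcongr
      linarith
    have h4 := single_le_sum (f := fun q => exp (-(η * (l * (log n / K) / 2 + η * log n))) *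
        exp (l * Y + η * Yc ξ (bb K n q) (bb K n (q + 1)) θ ω)) (s := Ico 1 K)
      (fun i _ => by positivity) hq
    linarith

omit [MeasurableSpace Ω] in
lemma GG_mul_le (l η : ℝ) (hl : 0 ≤ l) {K n : ℕ} (hK : 1 ≤ K) (hn : 1 ≤ n) (θ θ' : ℝ) (ω : Ω)
    (p : ℕ) (hp : 1 ≤ p) (hpK : p ≤ K) :
    GG ξ l η K n θ ω * GG ξ l η K n θ' ω ≤
      exp ((p - 1) * (l * (l * (log n / K) / 2 + η * log n))) *
      exp (l * Yc ξ (bb K n 1) n θ ω + l * Yc ξ (bb K n p) n θ' ω) := by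
  by_cases h : (∀ q ∈ Ico 1 K, Yc ξ (bb K n q) (bb K n (q + 1)) θ' ω ≤
      l * (log n / K) / 2 + η * log n) ∧
      l * H (bb K n 1) n / 2 - η * log n ≤ Yc ξ (bb K n 1) n θ' ω
  · have h1 : GG ξ l η K n θ' ω = exp (l * Yc ξ (bb K n 1) n θ' ω) := by rw [GG, if_pos h]
    have h2 : Yc ξ (bb K n 1) n θ' ω ≤ (p - 1) * (l * (log n / K) / 2 + η * log n) +
        Yc ξ (bb K n p) n θ' ω := by
      rw [Yc_split ξ hK hn θ' ω p hp hpK]
      gcongr
      have h3 : ∑ q ∈ Ico 1 p, Yc ξ (bb K n q) (bb K n (q + 1)) θ' ω ≤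
          ∑ q ∈ Ico 1 p, (l * (log n / K) / 2 + η * log n) := by
        apply sum_le_sum
        intro q hq
        rw [mem_Ico] at hq
        exact h.1 q (mem_Ico.2 ⟨hq.1, by omega⟩)
      refine h3.trans (le_of_eq ?_)
      rw [sum_const, Nat.card_Ico, nsmul_eq_mul, Nat.cast_sub hp, Nat.cast_one]
    rw [h1]
    calc GG ξ l η K n θ ω * exp (l * Yc ξ (bb K n 1) n θ' ω)
        ≤ exp (l * Yc ξ (bb K n 1) n θ ω) * exp (l * ((p - 1) * (l * (log n / K) / 2 + η * log n) +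
        Yc ξ (bb K n p) n θ' ω)) := by
          gcongr
          exact GG_le l η K n θ ω
      _ = _ := by
          rw [← exp_add, ← exp_add]; congr 1; ring
  · have h1 : GG ξ l η K n θ' ω = 0 := by rw [GG, if_neg h]
    rw [h1, mul_zero]
    positivity

end trunc

end Pool.Agent.H38.LC
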