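import Mathlib
import Pool.Agent.H38.LC.Lower

namespace Pool.Agent.H38.LC

open MeasureTheory ProbabilityTheory Real Finset Filter Topology

variable {Ω : Type*} [MeasurableSpace Ω] {P : Measure Ω} [IsProbabilityMeasure P]
  {ξ : ℕ → Ω → ℝ} {s₀ C : ℝ}

section

variable {K n : ℕ} {l η : ℝ}

omit [IsProbabilityMeasure P] in
/-- lower bound for `E exp(l Y)` -/
lemma mom_lower (hG : Good P ξ s₀ C) (hC : 0 ≤ C) (hK : 1 ≤ K) (hn : 1 ≤ n)
    (hb : 4 / √(bb K n 1 : ℝ) ≤ s₀) (hl0 : 0 ≤ l) (hl2 : l ≤ 2) {θ : ℝ} (h1 : 1 / 2 ≤ θ)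
    (h2 : θ ≤ 1) :
    Integrable (fun ω => exp (l * Yc ξ (bb K n 1) n θ ω)) P ∧
    exp (l ^ 2 * H (bb K n 1) n / 4) * exp (-(4 + 128 * C) / √(bb K n 1 : ℝ)) ≤
      ∫ ω, exp (l * Yc ξ (bb K n 1) n θ ω) ∂P := by
  set b := bb K n 1 with hbdef
  have hb1 : 1 ≤ b := bb_one_le _ _ _
  have hbn : b ≤ n := bb_le_n hK hn hK
  have hbr : (1 : ℝ) ≤ b := by exact_mod_cast hb1
  have hsb : 1 ≤ √(b : ℝ) := by rw [Real.one_le_sqrt]; exact hbr
  have hsbb : √(b : ℝ) ≤ b := by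
    rw [Real.sqrt_le_left (by linarith)]; nlinarith
  have heq : ∀ ω, l * Yc ξ b n θ ω = ∑ k ∈ Ioc b n, (l * cos (k * θ)) * co ξ ω k := by
    intro ω; rw [Yc, mul_sum]; exact sum_congr rfl fun k _ => by ring
  simp_rw [heq]
  obtain ⟨i1, i2, -⟩ := LM hG hC b n hb1 hbn 4 (by norm_num) hb (fun k => l * cos (k * θ)) (by
    intro k
    rw [abs_mul, abs_of_nonneg hl0]
    have := abs_cos_le_one (k * θ)
    nlinarith [abs_nonneg (cos (k * θ))])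
  refine ⟨i1, le_trans ?_ i2⟩
  rw [← exp_add]
  apply exp_le_exp.2
  have hv := (abs_le.1 (var_bound b n hb1 hbn h1 h2)).1
  have e1 : ∑ k ∈ Ioc b n, (l * cos (k * θ)) ^ 2 / k = l ^ 2 * ∑ k ∈ Ioc b n, cos (k * θ) ^ 2 / k := by
    rw [mul_sum]; exact sum_congr rfl fun k _ => by ring
  rw [e1]
  have hl4 : l ^ 2 ≤ 4 := by nlinarith
  have h3 : l ^ 2 * (H b n / 2 - 2 / b) ≤ l ^ 2 * ∑ k ∈ Ioc b n, cos (k * θ) ^ 2 / k := by
    gcongr; linarith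
  have h4 : l ^ 2 * (2 / (b : ℝ)) ≤ 8 / √(b : ℝ) := by
    calc l ^ 2 * (2 / (b : ℝ)) ≤ 4 * (2 / √(b : ℝ)) := by gcongr
      _ = 8 / √(b : ℝ) := by ring
  have h5 : -(4 + 128 * C) / √(b : ℝ) = -(8 / √(b : ℝ) / 2) - C * 4 ^ 3 * (2 / √(b : ℝ)) := by ring
  rw [h5]
  have h6 : l ^ 2 * (H b n / 2 - 2 / b) = l ^ 2 * H b n / 2 - l ^ 2 * (2 / (b : ℝ)) := by ring
  linarith

omit [IsProbabilityMeasure P] in
/-- upper bound for `E exp((l - η) Y)` -/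
lemma mom_shift (hG : Good P ξ s₀ C) (hC : 0 ≤ C) (hK : 1 ≤ K) (hn : 1 ≤ n)
    (hb : 4 / √(bb K n 1 : ℝ) ≤ s₀) (hl0 : 0 ≤ l) (hl2 : l ≤ 2) (hη0 : 0 ≤ η) (hη1 : η ≤ 1)
    {θ : ℝ} (h1 : 1 / 2 ≤ θ) (h2 : θ ≤ 1) :
    Integrable (fun ω => exp ((l - η) * Yc ξ (bb K n 1) n θ ω)) P ∧
    exp (η * (l * H (bb K n 1) n / 2 - η * log n)) *
      ∫ ω, exp ((l - η) * Yc ξ (bb K n 1) n θ ω) ∂P ≤
    exp (l ^ 2 * H (bb K n 1) n / 4) * exp (11 + 128 * C - 3 / 4 * η ^ 2 * log n) := by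
  set b := bb K n 1 with hbdef
  have hb1 : 1 ≤ b := bb_one_le _ _ _
  have hbn : b ≤ n := bb_le_n hK hn hK
  have hbr : (1 : ℝ) ≤ b := by exact_mod_cast hb1
  have hsb : 1 ≤ √(b : ℝ) := by rw [Real.one_le_sqrt]; exact hbr
  have heq : ∀ ω, (l - η) * Yc ξ b n θ ω = ∑ k ∈ Ioc b n, ((l - η) * cos (k * θ)) * co ξ ω k := by
    intro ω; rw [Yc, mul_sum]; exact sum_congr rfl fun k _ => by ring
  simp_rw [heq]
  have habs : |l - η| ≤ 2 := by rw [abs_le]; constructor <;> linarith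
  obtain ⟨i1, -, i3⟩ := LM hG hC b n hb1 hbn 4 (by norm_num) hb (fun k => (l - η) * cos (k * θ)) (by
    intro k
    rw [abs_mul]
    have := abs_cos_le_one (k * θ)
    nlinarith [abs_nonneg (cos (k * θ)), abs_nonneg (l - η)])
  refine ⟨i1, ?_⟩
  refine (mul_le_mul_of_nonneg_left i3 (exp_pos _).le).trans ?_
  rw [← exp_add, ← exp_add]
  apply exp_le_exp.2
  have hv := (abs_le.1 (var_bound b n hb1 hbn h1 h2)).2
  have e1 : ∑ k ∈ Ioc b n, ((l - η) * cos (k * θ)) ^ 2 / k =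
      (l - η) ^ 2 * ∑ k ∈ Ioc b n, cos (k * θ) ^ 2 / k := by
    rw [mul_sum]; exact sum_congr rfl fun k _ => by ring
  rw [e1]
  have hl4 : (l - η) ^ 2 ≤ 4 := by rw [← sq_abs]; nlinarith [abs_nonneg (l - η)]
  have h2b : 2 / (b : ℝ) ≤ 2 := by rw [div_le_iff₀ (by linarith)]; linarith
  have h3 : (l - η) ^ 2 * ∑ k ∈ Ioc b n, cos (k * θ) ^ 2 / k ≤ (l - η) ^ 2 * (H b n / 2 + 2) := by
    gcongr; linarith
  have h4 : C * 4 ^ 3 * (2 / √(b : ℝ)) ≤ 128 * C := by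
    have : 2 / √(b : ℝ) ≤ 2 := by rw [div_le_iff₀ (by linarith)]; linarith
    calc C * 4 ^ 3 * (2 / √(b : ℝ)) ≤ C * 4 ^ 3 * 2 := by gcongr
      _ = 128 * C := by ring
  have h5 : H b n ≤ log n := H_le hK hn hK
  have h6 : η ^ 2 * H b n ≤ η ^ 2 * log n := by gcongr
  nlinarith

omit [IsProbabilityMeasure P] in
/-- upper bound for `E exp(l Y + η Y_q)` -/
lemma mom_block (hG : Good P ξ s₀ C) (hC : 0 ≤ C) (hK : 1 ≤ K) (hn : 1 ≤ n)
    (hb : 4 / √(bb K n 1 : ℝ) ≤ s₀) (hl0 : 0 ≤ l) (hl2 : l ≤ 2) (hη0 : 0 ≤ η) (hη1 : η ≤ 1)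
    {θ : ℝ} (h1 : 1 / 2 ≤ θ) (h2 : θ ≤ 1) {q : ℕ} (hq1 : 1 ≤ q) (hqK : q < K) :
    Integrable (fun ω => exp (l * Yc ξ (bb K n 1) n θ ω +
      η * Yc ξ (bb K n q) (bb K n (q + 1)) θ ω)) P ∧
    exp (-(η * (l * (log n / K) / 2 + η * log n))) *
      ∫ ω, exp (l * Yc ξ (bb K n 1) n θ ω + η * Yc ξ (bb K n q) (bb K n (q + 1)) θ ω) ∂P ≤
    exp (l ^ 2 * H (bb K n 1) n / 4) * exp (11 + 128 * C - 3 / 4 * η ^ 2 * log n) := by
  set b := bb K n 1 with hbdef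
  set b' := bb K n q with hb'
  set b'' := bb K n (q + 1) with hb''
  have hb1 : 1 ≤ b := bb_one_le _ _ _
  have hb1' : 1 ≤ b' := bb_one_le _ _ _
  have hbn : b ≤ n := bb_le_n hK hn hK
  have hbb' : b ≤ b' := bb_mono K n hq1
  have hbb'' : b' ≤ b'' := bb_mono K n (by omega)
  have hbn'' : b'' ≤ n := bb_le_n hK hn (by omega)
  have hbr : (1 : ℝ) ≤ b := by exact_mod_cast hb1
  have hbr' : (1 : ℝ) ≤ b' := by exact_mod_cast hb1'
  have hsb : 1 ≤ √(b : ℝ) := by rw [Real.one_le_sqrt]; exact hbr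
  have hsub : Ioc b' b'' ⊆ Ioc b n := Ioc_subset_Ioc hbb' hbn''
  set f : ℕ → ℝ := fun k => (l + if k ∈ Ioc b' b'' then η else 0) * cos (k * θ) with hf
  have heq : ∀ ω, l * Yc ξ b n θ ω + η * Yc ξ b' b'' θ ω = ∑ k ∈ Ioc b n, f k * co ξ ω k := by
    intro ω
    have e1 : ∑ k ∈ Ioc b n, (if k ∈ Ioc b' b'' then η * (cos (k * θ) * co ξ ω k) else 0) =
        η * Yc ξ b' b'' θ ω := by
      rw [← sum_filter, Yc, mul_sum]
      refine sum_congr ?_ fun k _ => rfl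
      ext k
      simp only [mem_filter]
      exact ⟨fun h => h.2, fun h => ⟨hsub h, h⟩⟩
    rw [← e1, Yc, mul_sum, ← sum_add_distrib]
    refine sum_congr rfl fun k _ => ?_
    rw [hf]; simp only
    split_ifs <;> ring
  simp_rw [heq]
  obtain ⟨i1, -, i3⟩ := LM hG hC b n hb1 hbn 4 (by norm_num) hb f (by
    intro k
    rw [hf]; simp only
    rw [abs_mul]
    have h3 := abs_cos_le_one (k * θ)
    have h4 : |l + if k ∈ Ioc b' b'' then η else 0| ≤ 4 := by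
      split_ifs
      · rw [abs_le]; constructor <;> linarith
      · rw [abs_le]; constructor <;> linarith
    nlinarith [abs_nonneg (cos (k * θ)), abs_nonneg (l + if k ∈ Ioc b' b'' then η else 0)])
  refine ⟨i1, ?_⟩
  refine (mul_le_mul_of_nonneg_left i3 (exp_pos _).le).trans ?_
  rw [← exp_add, ← exp_add]
  apply exp_le_exp.2
  have e1 : ∑ k ∈ Ioc b n, f k ^ 2 / k =
      l ^ 2 * ∑ k ∈ Ioc b n, cos (k * θ) ^ 2 / k +
      (2 * l * η + η ^ 2) * ∑ k ∈ Ioc b' b'', cos (k * θ) ^ 2 / k := by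
    have e2 : ∑ k ∈ Ioc b n, (if k ∈ Ioc b' b'' then
        (2 * l * η + η ^ 2) * (cos (k * θ) ^ 2 / k) else 0) =
        (2 * l * η + η ^ 2) * ∑ k ∈ Ioc b' b'', cos (k * θ) ^ 2 / k := by
      rw [← sum_filter, mul_sum]
      refine sum_congr ?_ fun k _ => rfl
      ext k
      simp only [mem_filter]
      exact ⟨fun h => h.2, fun h => ⟨hsub h, h⟩⟩
    rw [← e2, mul_sum, ← sum_add_distrib]
    refine sum_congr rfl fun k _ => ?_
    rw [hf]; simp only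
    split_ifs <;> ring
  rw [e1]
  have hv := (abs_le.1 (var_bound b n hb1 hbn h1 h2)).2
  have hv' := (abs_le.1 (var_bound b' b'' hb1' hbb'' h1 h2)).2
  have h2b : 2 / (b : ℝ) ≤ 2 := by rw [div_le_iff₀ (by linarith)]; linarith
  have h2b' : 2 / (b' : ℝ) ≤ 2 := by rw [div_le_iff₀ (by linarith)]; linarith
  have hHq : H b' b'' ≤ log n / K + 1 := H_block_le K n q
  have h3 : l ^ 2 * ∑ k ∈ Ioc b n, cos (k * θ) ^ 2 / k ≤ l ^ 2 * (H b n / 2 + 2) := by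
    gcongr; linarith
  have h4 : (2 * l * η + η ^ 2) * ∑ k ∈ Ioc b' b'', cos (k * θ) ^ 2 / k ≤
      (2 * l * η + η ^ 2) * ((log n / K + 1) / 2 + 2) := by
    gcongr; linarith
  have h5 : C * 4 ^ 3 * (2 / √(b : ℝ)) ≤ 128 * C := by
    have : 2 / √(b : ℝ) ≤ 2 := by rw [div_le_iff₀ (by linarith)]; linarith
    calc C * 4 ^ 3 * (2 / √(b : ℝ)) ≤ C * 4 ^ 3 * 2 := by gcongr
      _ = 128 * C := by ring
  have hL : 0 ≤ log (n : ℝ) := log_natCast_nonneg n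
  have hlK : log (n : ℝ) / K ≤ log n := by
    apply div_le_self hL; exact_mod_cast hK
  have h6 : η ^ 2 * (log (n : ℝ) / K) ≤ η ^ 2 * log n := by gcongr
  have hlη : l * η ≤ 2 := by nlinarith
  have hl4 : l ^ 2 ≤ 4 := by nlinarith
  have hη2 : η ^ 2 ≤ 1 := by nlinarith
  nlinarith





omit [IsProbabilityMeasure P] in
/-- general pair bound -/
lemma mom_pair (hG : Good P ξ s₀ C) (hC : 0 ≤ C) (hK : 1 ≤ K) (hn : 1 ≤ n)
    (hb : 4 / √(bb K n 1 : ℝ) ≤ s₀) (hl0 : 0 ≤ l) (hl2 : l ≤ 2)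
    {θ θ' : ℝ} (h1 : 1 / 2 ≤ θ) (h2 : θ ≤ 1) (h1' : 1 / 2 ≤ θ') (h2' : θ' ≤ 1)
    {p : ℕ} (hp1 : 1 ≤ p) (hpK : p ≤ K) {B : ℝ}
    (hB : |∑ k ∈ Ioc (bb K n p) n, cos (k * θ) * cos (k * θ') / k| ≤ B) :
    Integrable (fun ω => exp (l * Yc ξ (bb K n 1) n θ ω + l * Yc ξ (bb K n p) n θ' ω)) P ∧
      ∫ ω, exp (l * Yc ξ (bb K n 1) n θ ω + l * Yc ξ (bb K n p) n θ' ω) ∂P ≤
    exp (l ^ 2 / 2 * (H (bb K n 1) n / 2 + 2 / bb K n 1 + (H (bb K n p) n / 2 + 2 / bb K n p) +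
      2 * B) + 128 * C / √(bb K n 1 : ℝ)) := by
  set b := bb K n 1 with hbdef
  set b' := bb K n p with hb'
  have hb1 : 1 ≤ b := bb_one_le _ _ _
  have hb1' : 1 ≤ b' := bb_one_le _ _ _
  have hbn : b ≤ n := bb_le_n hK hn hK
  have hbn' : b' ≤ n := bb_le_n hK hn hpK
  have hbb' : b ≤ b' := bb_mono K n hp1
  have hsub : Ioc b' n ⊆ Ioc b n := Ioc_subset_Ioc hbb' le_rfl
  set f : ℕ → ℝ := fun k => l * (cos (k * θ) + if k ∈ Ioc b' n then cos (k * θ') else 0) with hf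
  have heq : ∀ ω, l * Yc ξ b n θ ω + l * Yc ξ b' n θ' ω = ∑ k ∈ Ioc b n, f k * co ξ ω k := by
    intro ω
    have e1 : ∑ k ∈ Ioc b n, (if k ∈ Ioc b' n then l * (cos (k * θ') * co ξ ω k) else 0) =
        l * Yc ξ b' n θ' ω := by
      rw [← sum_filter, Yc, mul_sum]
      refine sum_congr ?_ fun k _ => rfl
      ext k
      simp only [mem_filter]
      exact ⟨fun h => h.2, fun h => ⟨hsub h, h⟩⟩
    rw [← e1, Yc, mul_sum, ← sum_add_distrib]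
    refine sum_congr rfl fun k _ => ?_
    rw [hf]; simp only
    split_ifs <;> ring
  simp_rw [heq]
  obtain ⟨i1, -, i3⟩ := LM hG hC b n hb1 hbn 4 (by norm_num) hb f (by
    intro k
    rw [hf]; simp only
    rw [abs_mul, abs_of_nonneg hl0]
    have h3 := abs_cos_le_one (k * θ)
    have h4 : |if k ∈ Ioc b' n then cos (k * θ') else 0| ≤ 1 := by
      split_ifs
      · exact abs_cos_le_one _
      · simp
    have h5 := abs_add_le (cos (k * θ)) (if k ∈ Ioc b' n then cos (k * θ') else 0)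
    nlinarith [abs_nonneg (cos (k * θ) + if k ∈ Ioc b' n then cos (k * θ') else 0)])
  refine ⟨i1, i3.trans ?_⟩
  apply exp_le_exp.2
  have e1 : ∑ k ∈ Ioc b n, f k ^ 2 / k =
      l ^ 2 * (∑ k ∈ Ioc b n, cos (k * θ) ^ 2 / k + (∑ k ∈ Ioc b' n, cos (k * θ') ^ 2 / k +
        2 * ∑ k ∈ Ioc b' n, cos (k * θ) * cos (k * θ') / k)) := by
    have e2 : ∑ k ∈ Ioc b n, (if k ∈ Ioc b' n then
        (cos (k * θ') ^ 2 / k + 2 * (cos (k * θ) * cos (k * θ') / k)) else 0) =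
        ∑ k ∈ Ioc b' n, cos (k * θ') ^ 2 / k +
        2 * ∑ k ∈ Ioc b' n, cos (k * θ) * cos (k * θ') / k := by
      rw [← sum_filter, mul_sum, ← sum_add_distrib]
      refine sum_congr ?_ fun k _ => rfl
      ext k
      simp only [mem_filter]
      exact ⟨fun h => h.2, fun h => ⟨hsub h, h⟩⟩
    rw [← e2, ← sum_add_distrib, mul_sum]
    refine sum_congr rfl fun k _ => ?_
    rw [hf]; simp only
    split_ifs <;> ring
  rw [e1]
  have hv := (abs_le.1 (var_bound b n hb1 hbn h1 h2)).2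
  have hv' := (abs_le.1 (var_bound b' n hb1' hbn' h1' h2')).2
  have hc := (abs_le.1 hB).2
  have h3 : l ^ 2 * (∑ k ∈ Ioc b n, cos (k * θ) ^ 2 / k + (∑ k ∈ Ioc b' n, cos (k * θ') ^ 2 / k +
        2 * ∑ k ∈ Ioc b' n, cos (k * θ) * cos (k * θ') / k)) ≤
      l ^ 2 * (H b n / 2 + 2 / b + (H b' n / 2 + 2 / b') + 2 * B) :=
    mul_le_mul_of_nonneg_left (by linarith) (sq_nonneg l)
  have h4 : C * 4 ^ 3 * (2 / √(b : ℝ)) = 128 * C / √(b : ℝ) := by ring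
  rw [h4]
  linarith

omit [IsProbabilityMeasure P] in
/-- near pairs -/
lemma mom_near (hG : Good P ξ s₀ C) (hC : 0 ≤ C) (hK : 1 ≤ K) (hn : 1 ≤ n)
    (hb : 4 / √(bb K n 1 : ℝ) ≤ s₀) (hl0 : 0 ≤ l) (hl2 : l ≤ 2)
    {θ θ' : ℝ} (h1 : 1 / 2 ≤ θ) (h2 : θ ≤ 1) (h1' : 1 / 2 ≤ θ') (h2' : θ' ≤ 1)
    {p : ℕ} (hp1 : 1 ≤ p) (hpK : p ≤ K) (hd : p = K ∨ 1 ≤ bb K n p * |θ - θ'|)
    (hm : ∀ k, Measurable (ξ k)) :
    Integrable (fun ω => GG ξ l η K n θ ω * GG ξ l η K n θ' ω) P ∧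
    ∫ ω, GG ξ l η K n θ ω * GG ξ l η K n θ' ω ∂P ≤
      exp (l ^ 2 * H (bb K n 1) n / 2) *
      (exp (25 + 128 * C) * exp ((p - 1) * (l ^ 2 / 4 * (log n / K) + l * η * log n))) := by
  set b := bb K n 1 with hbdef
  have hb1 : 1 ≤ b := bb_one_le _ _ _
  have hbr : (1 : ℝ) ≤ b := by exact_mod_cast hb1
  have hsb : 1 ≤ √(b : ℝ) := by rw [Real.one_le_sqrt]; exact hbr
  have hb1' : 1 ≤ bb K n p := bb_one_le _ _ _
  have hbr' : (1 : ℝ) ≤ bb K n p := by exact_mod_cast hb1'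
  have hB : |∑ k ∈ Ioc (bb K n p) n, cos (k * θ) * cos (k * θ') / k| ≤ 4 := by
    rcases hd with hd | hd
    · rw [hd, bb_top hK hn]; simp
    · have hne : θ ≠ θ' := by
        rintro rfl
        simp at hd
        linarith
      refine (cov_bound (bb K n p) n hb1' (bb_le_n hK hn hpK) h1 h2 h1' h2' hne).trans ?_
      rw [div_le_iff₀ (by linarith)]
      linarith
  obtain ⟨i1, i2⟩ := mom_pair hG hC hK hn hb hl0 hl2 h1 h2 h1' h2' hp1 hpK hB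
  have hint : Integrable (fun ω => GG ξ l η K n θ ω * GG ξ l η K n θ' ω) P := by
    refine (i1.const_mul (exp ((p - 1) * (l * (l * (log n / K) / 2 + η * log n))))).mono'
      ((GG_meas hm _ _ _ _ _).mul (GG_meas hm _ _ _ _ _)).aestronglyMeasurable
      (Eventually.of_forall fun ω => ?_)
    rw [Real.norm_eq_abs, abs_of_nonneg (mul_nonneg (GG_nonneg _ _ _ _ _ _) (GG_nonneg _ _ _ _ _ _))]
    exact GG_mul_le l η hl0 hK hn θ θ' ω p hp1 hpK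
  refine ⟨hint, ?_⟩
  calc ∫ ω, GG ξ l η K n θ ω * GG ξ l η K n θ' ω ∂P
      ≤ ∫ ω, exp ((p - 1) * (l * (l * (log n / K) / 2 + η * log n))) *
        exp (l * Yc ξ b n θ ω + l * Yc ξ (bb K n p) n θ' ω) ∂P := by
        apply integral_mono hint (i1.const_mul _)
        intro ω
        exact GG_mul_le l η hl0 hK hn θ θ' ω p hp1 hpK
    _ = exp ((p - 1) * (l * (l * (log n / K) / 2 + η * log n))) *
        ∫ ω, exp (l * Yc ξ b n θ ω + l * Yc ξ (bb K n p) n θ' ω) ∂P := integral_const_mul _ _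
    _ ≤ exp ((p - 1) * (l * (l * (log n / K) / 2 + η * log n))) *
        exp (l ^ 2 / 2 * (H b n / 2 + 2 / b + (H (bb K n p) n / 2 + 2 / bb K n p) +
        2 * 4) + 128 * C / √(b : ℝ)) := by gcongr
    _ ≤ _ := by
        rw [← exp_add, ← exp_add, ← exp_add]
        apply exp_le_exp.2
        have e1 : H b n = H b (bb K n p) + H (bb K n p) n :=
          H_add (bb_mono K n hp1) (bb_le_n hK hn hpK)
        have e2 : (p - 1 : ℝ) * (log n / K) - 1 ≤ H b (bb K n p) := le_H_first K n hp1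
        have e3 : 2 / (b : ℝ) ≤ 2 := by rw [div_le_iff₀ (by linarith)]; linarith
        have e4 : 2 / (bb K n p : ℝ) ≤ 2 := by rw [div_le_iff₀ (by linarith)]; linarith
        have e5 : 128 * C / √(b : ℝ) ≤ 128 * C := by
          apply div_le_self (by positivity) hsb
        have hl4 : l ^ 2 ≤ 4 := by nlinarith
        have e6 : H (bb K n p) n ≤ H b n - ((p - 1 : ℝ) * (log n / K) - 1) := by linarith
        have e7 : l ^ 2 / 2 * (H b n / 2 + 2 / b + (H (bb K n p) n / 2 + 2 / bb K n p) + 2 * 4) ≤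
            l ^ 2 / 2 * (H b n / 2 + 2 + ((H b n - ((p - 1 : ℝ) * (log n / K) - 1)) / 2 + 2) +
              2 * 4) := by gcongr
        have e8 : l ^ 2 / 2 * (H b n / 2 + 2 + ((H b n - ((p - 1 : ℝ) * (log n / K) - 1)) / 2 + 2) +
              2 * 4) = l ^ 2 * H b n / 2 - l ^ 2 / 4 * ((p - 1 : ℝ) * (log n / K)) +
              l ^ 2 * (25 / 4) := by ring
        have e9 : l ^ 2 * (25 / 4) ≤ 25 := by linarith
        have e10 : ((p : ℝ) - 1) * (l * (l * (log n / K) / 2 + η * log n)) =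
            l ^ 2 / 4 * ((p - 1 : ℝ) * (log n / K)) +
            ((p : ℝ) - 1) * (l ^ 2 / 4 * (log n / K) + l * η * log n) := by ring
        linarith

omit [IsProbabilityMeasure P] in
/-- far pairs -/
lemma mom_far (hG : Good P ξ s₀ C) (hC : 0 ≤ C) (hK : 1 ≤ K) (hn : 1 ≤ n)
    (hb : 4 / √(bb K n 1 : ℝ) ≤ s₀) (hl0 : 0 ≤ l) (hl2 : l ≤ 2)
    {θ θ' : ℝ} (h1 : 1 / 2 ≤ θ) (h2 : θ ≤ 1) (h1' : 1 / 2 ≤ θ') (h2' : θ' ≤ 1)
    (hd : 1 ≤ √(bb K n 1 : ℝ) * |θ - θ'|)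
    (hm : ∀ k, Measurable (ξ k)) :
    ∫ ω, GG ξ l η K n θ ω * GG ξ l η K n θ' ω ∂P ≤
      exp (l ^ 2 * H (bb K n 1) n / 2) * exp ((24 + 128 * C) / √(bb K n 1 : ℝ)) := by
  set b := bb K n 1 with hbdef
  have hb1 : 1 ≤ b := bb_one_le _ _ _
  have hbr : (1 : ℝ) ≤ b := by exact_mod_cast hb1
  have hsb : 1 ≤ √(b : ℝ) := by rw [Real.one_le_sqrt]; exact hbr
  have hsb0 : 0 < √(b : ℝ) := by linarith
  have hsbb : √(b : ℝ) ≤ b := by
    rw [Real.sqrt_le_left (by linarith)]; nlinarith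
  have hne : θ ≠ θ' := by
    rintro rfl
    simp at hd
    linarith
  have hss : √(b : ℝ) * √(b : ℝ) = b := Real.mul_self_sqrt (by linarith)
  have hbd : √(b : ℝ) ≤ b * |θ - θ'| := by
    calc √(b : ℝ) = √(b : ℝ) * 1 := by ring
      _ ≤ √(b : ℝ) * (√(b : ℝ) * |θ - θ'|) := by gcongr
      _ = b * |θ - θ'| := by rw [← mul_assoc, hss]
  have hB : |∑ k ∈ Ioc b n, cos (k * θ) * cos (k * θ') / k| ≤ 4 / √(b : ℝ) := by
    refine (cov_bound b n hb1 (bb_le_n hK hn hK) h1 h2 h1' h2' hne).trans ?_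
    gcongr
  obtain ⟨i1, i2⟩ := mom_pair hG hC hK hn hb hl0 hl2 h1 h2 h1' h2' le_rfl hK hB
  have hle : ∀ ω, GG ξ l η K n θ ω * GG ξ l η K n θ' ω ≤
      exp (l * Yc ξ b n θ ω + l * Yc ξ b n θ' ω) := by
    intro ω
    rw [exp_add]
    exact mul_le_mul (GG_le _ _ _ _ _ _) (GG_le _ _ _ _ _ _) (GG_nonneg _ _ _ _ _ _) (exp_pos _).le
  have hint : Integrable (fun ω => GG ξ l η K n θ ω * GG ξ l η K n θ' ω) P := by
    refine i1.mono' ((GG_meas hm _ _ _ _ _).mul (GG_meas hm _ _ _ _ _)).aestronglyMeasurable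
      (Eventually.of_forall fun ω => ?_)
    rw [Real.norm_eq_abs, abs_of_nonneg (mul_nonneg (GG_nonneg _ _ _ _ _ _) (GG_nonneg _ _ _ _ _ _))]
    exact hle ω
  calc ∫ ω, GG ξ l η K n θ ω * GG ξ l η K n θ' ω ∂P
      ≤ ∫ ω, exp (l * Yc ξ b n θ ω + l * Yc ξ b n θ' ω) ∂P := integral_mono hint i1 hle
    _ ≤ exp (l ^ 2 / 2 * (H b n / 2 + 2 / b + (H b n / 2 + 2 / b) +
        2 * (4 / √(b : ℝ))) + 128 * C / √(b : ℝ)) := i2
    _ ≤ _ := by
        rw [← exp_add]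
        apply exp_le_exp.2
        have e3 : 2 / (b : ℝ) ≤ 2 / √(b : ℝ) := by gcongr
        have hl4 : l ^ 2 ≤ 4 := by nlinarith
        have e4 : l ^ 2 / 2 * (H b n / 2 + 2 / b + (H b n / 2 + 2 / b) + 2 * (4 / √(b : ℝ))) ≤
          l ^ 2 / 2 * (H b n / 2 + 2 / √(b : ℝ) + (H b n / 2 + 2 / √(b : ℝ)) +
          2 * (4 / √(b : ℝ))) := by gcongr
        have e5 : l ^ 2 / 2 * (H b n / 2 + 2 / √(b : ℝ) + (H b n / 2 + 2 / √(b : ℝ)) +
          2 * (4 / √(b : ℝ))) = l ^ 2 * H b n / 2 + l ^ 2 * (6 / √(b : ℝ)) := by ring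
        have e6 : l ^ 2 * (6 / √(b : ℝ)) ≤ 4 * (6 / √(b : ℝ)) := by gcongr
        have e7 : (24 + 128 * C) / √(b : ℝ) = 4 * (6 / √(b : ℝ)) + 128 * C / √(b : ℝ) := by ring
        rw [e7]
        linarith

omit [IsProbabilityMeasure P] in
/-- first moment -/
lemma mom_first (hG : Good P ξ s₀ C) (hC : 0 ≤ C) (hK : 1 ≤ K) (hn : 1 ≤ n)
    (hb : 4 / √(bb K n 1 : ℝ) ≤ s₀) (hl0 : 0 ≤ l) (hl2 : l ≤ 2) (hη0 : 0 ≤ η) (hη1 : η ≤ 1)
    {θ : ℝ} (h1 : 1 / 2 ≤ θ) (h2 : θ ≤ 1) (hm : ∀ k, Measurable (ξ k)) :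
    Integrable (GG ξ l η K n θ) P ∧
    exp (l ^ 2 * H (bb K n 1) n / 4) * (exp (-(4 + 128 * C) / √(bb K n 1 : ℝ)) -
      K * exp (11 + 128 * C - 3 / 4 * η ^ 2 * log n)) ≤
    ∫ ω, GG ξ l η K n θ ω ∂P := by
  obtain ⟨i1, i2⟩ := mom_lower hG hC hK hn hb hl0 hl2 h1 h2
  obtain ⟨j1, j2⟩ := mom_shift hG hC hK hn hb hl0 hl2 hη0 hη1 h1 h2
  have hint : Integrable (GG ξ l η K n θ) P := by
    refine i1.mono' (GG_meas hm _ _ _ _ _).aestronglyMeasurable (Eventually.of_forall fun ω => ?_)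
    rw [Real.norm_eq_abs, abs_of_nonneg (GG_nonneg _ _ _ _ _ _)]
    exact GG_le _ _ _ _ _ _
  refine ⟨hint, ?_⟩
  set D := exp (l ^ 2 * H (bb K n 1) n / 4) with hD
  set E := exp (11 + 128 * C - 3 / 4 * η ^ 2 * log n) with hE
  have hblock : ∀ q ∈ Ico 1 K, Integrable (fun ω =>
      exp (-(η * (l * (log n / K) / 2 + η * log n))) *
      exp (l * Yc ξ (bb K n 1) n θ ω + η * Yc ξ (bb K n q) (bb K n (q + 1)) θ ω)) P ∧
      ∫ ω, exp (-(η * (l * (log n / K) / 2 + η * log n))) *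
      exp (l * Yc ξ (bb K n 1) n θ ω + η * Yc ξ (bb K n q) (bb K n (q + 1)) θ ω) ∂P ≤ D * E := by
    intro q hq
    rw [mem_Ico] at hq
    obtain ⟨k1, k2⟩ := mom_block hG hC hK hn hb hl0 hl2 hη0 hη1 h1 h2 hq.1 hq.2
    refine ⟨k1.const_mul _, ?_⟩
    rw [integral_const_mul]
    exact k2
  have hsumint : Integrable (fun ω => ∑ q ∈ Ico 1 K,
      exp (-(η * (l * (log n / K) / 2 + η * log n))) *
      exp (l * Yc ξ (bb K n 1) n θ ω + η * Yc ξ (bb K n q) (bb K n (q + 1)) θ ω)) P :=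
    integrable_finsetSum _ fun q hq => (hblock q hq).1
  have hshint : Integrable (fun ω => exp (η * (l * H (bb K n 1) n / 2 - η * log n)) *
        exp ((l - η) * Yc ξ (bb K n 1) n θ ω)) P := j1.const_mul _
  have hmain : ∫ ω, exp (l * Yc ξ (bb K n 1) n θ ω) ∂P ≤ ∫ ω, (GG ξ l η K n θ ω +
      (∑ q ∈ Ico 1 K, exp (-(η * (l * (log n / K) / 2 + η * log n))) *
        exp (l * Yc ξ (bb K n 1) n θ ω + η * Yc ξ (bb K n q) (bb K n (q + 1)) θ ω) +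
      exp (η * (l * H (bb K n 1) n / 2 - η * log n)) *
        exp ((l - η) * Yc ξ (bb K n 1) n θ ω))) ∂P :=
    integral_mono i1 (hint.add (hsumint.add hshint)) fun ω => exp_le_GG l η hη0 K n θ ω
  have hsplit : ∫ ω, (GG ξ l η K n θ ω +
      (∑ q ∈ Ico 1 K, exp (-(η * (l * (log n / K) / 2 + η * log n))) *
        exp (l * Yc ξ (bb K n 1) n θ ω + η * Yc ξ (bb K n q) (bb K n (q + 1)) θ ω) +
      exp (η * (l * H (bb K n 1) n / 2 - η * log n)) *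
        exp ((l - η) * Yc ξ (bb K n 1) n θ ω))) ∂P =
      ∫ ω, GG ξ l η K n θ ω ∂P + (∑ q ∈ Ico 1 K,
        ∫ ω, exp (-(η * (l * (log n / K) / 2 + η * log n))) *
        exp (l * Yc ξ (bb K n 1) n θ ω + η * Yc ξ (bb K n q) (bb K n (q + 1)) θ ω) ∂P +
        ∫ ω, exp (η * (l * H (bb K n 1) n / 2 - η * log n)) *
        exp ((l - η) * Yc ξ (bb K n 1) n θ ω) ∂P) := by
    have hadd : Integrable (fun ω => ∑ q ∈ Ico 1 K,
        exp (-(η * (l * (log n / K) / 2 + η * log n))) *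
        exp (l * Yc ξ (bb K n 1) n θ ω + η * Yc ξ (bb K n q) (bb K n (q + 1)) θ ω) +
        exp (η * (l * H (bb K n 1) n / 2 - η * log n)) *
        exp ((l - η) * Yc ξ (bb K n 1) n θ ω)) P := hsumint.add hshint
    rw [integral_add hint hadd, integral_add hsumint hshint,
      integral_finsetSum _ fun q hq => (hblock q hq).1]
  have hbsum : ∑ q ∈ Ico 1 K,
        ∫ ω, exp (-(η * (l * (log n / K) / 2 + η * log n))) *
        exp (l * Yc ξ (bb K n 1) n θ ω + η * Yc ξ (bb K n q) (bb K n (q + 1)) θ ω) ∂P ≤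
        (K - 1) * (D * E) := by
    calc _ ≤ ∑ q ∈ Ico 1 K, D * E := sum_le_sum fun q hq => (hblock q hq).2
      _ = (K - 1) * (D * E) := by
        rw [sum_const, Nat.card_Ico, nsmul_eq_mul, Nat.cast_sub hK, Nat.cast_one]
  have hsh : ∫ ω, exp (η * (l * H (bb K n 1) n / 2 - η * log n)) *
        exp ((l - η) * Yc ξ (bb K n 1) n θ ω) ∂P ≤ D * E := by
    rw [integral_const_mul]; exact j2
  rw [hsplit] at hmain
  have : D * (exp (-(4 + 128 * C) / √(bb K n 1 : ℝ)) - K * E) =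
      D * exp (-(4 + 128 * C) / √(bb K n 1 : ℝ)) - ((K - 1) * (D * E) + D * E) := by ring
  rw [this]
  linarith

end

end Pool.Agent.H38.LC
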