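import Mathlib
import Pool.Agent.H38.LC.Moments

namespace Pool.Agent.H38.LC

open MeasureTheory ProbabilityTheory Real Finset Filter Topology

variable {Ω : Type*} [MeasurableSpace Ω] {P : Measure Ω} [IsProbabilityMeasure P]
  {ξ : ℕ → Ω → ℝ} {s₀ C : ℝ}

/-- the angles used for the lower bound -/
noncomputable def ang (n j : ℕ) : ℝ := 1 / 2 + j / (2 * n)

lemma ang_ge (n j : ℕ) : 1 / 2 ≤ ang n j := by
  rw [ang]; have : (0 : ℝ) ≤ j / (2 * n) := by positivity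
  linarith

lemma ang_le {n j : ℕ} (h : j < n) : ang n j ≤ 1 := by
  rw [ang]
  have hn : (0 : ℝ) < n := by exact_mod_cast (by omega : 0 < n)
  have : (j : ℝ) / (2 * n) ≤ 1 / 2 := by
    rw [div_le_iff₀ (by positivity)]
    have : (j : ℝ) ≤ n := by exact_mod_cast h.le
    linarith
  linarith

lemma ang_sub {n : ℕ} (hn : 0 < n) (j j' : ℕ) :
    |ang n j - ang n j'| = |(j : ℝ) - j'| / (2 * n) := by
  have hn : (0 : ℝ) < n := by exact_mod_cast hn
  have : ang n j - ang n j' = ((j : ℝ) - j') / (2 * n) := by rw [ang, ang]; ring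
  rw [this, abs_div, abs_of_pos (by positivity : (0 : ℝ) < 2 * n)]

lemma count_near (n j : ℕ) (T : ℝ) (hT : 0 ≤ T) :
    ∑ j' ∈ range n, (if |(j : ℝ) - j'| < T then (1 : ℝ) else 0) ≤ 2 * T + 1 := by
  rw [← sum_filter, sum_const, nsmul_eq_mul, mul_one]
  set m := ⌈T⌉₊ with hm
  have hsub : (range n).filter (fun j' : ℕ => |(j : ℝ) - j'| < T) ⊆ Icc (j + 1 - m) (j + m - 1) := by
    intro j' hj'
    rw [mem_filter] at hj'
    have h1 := abs_lt.1 hj'.2
    have h2 : T ≤ m := Nat.le_ceil T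
    have h3 : (j : ℝ) < j' + m := by linarith
    have h4 : (j' : ℝ) < j + m := by linarith
    have h3' : j < j' + m := by exact_mod_cast h3
    have h4' : j' < j + m := by exact_mod_cast h4
    rw [mem_Icc]; omega
  have hcard := card_le_card hsub
  rw [Nat.card_Icc] at hcard
  rcases hT.eq_or_lt with h0 | h0
  · -- T = 0
    have h5 : (range n).filter (fun j' : ℕ => |(j : ℝ) - j'| < T) = ∅ := by
      rw [filter_eq_empty_iff]
      intro j' _
      rw [← h0]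
      exact not_lt.2 (abs_nonneg _)
    rw [h5, card_empty]; simp; linarith
  · have hm1 : 1 ≤ m := Nat.one_le_ceil_iff.2 h0
    have h6 : ((range n).filter (fun j' : ℕ => |(j : ℝ) - j'| < T)).card ≤ 2 * m - 1 := by omega
    have h7 : (m : ℝ) < T + 1 := Nat.ceil_lt_add_one hT
    calc (((range n).filter (fun j' : ℕ => |(j : ℝ) - j'| < T)).card : ℝ) ≤ ((2 * m - 1 : ℕ) : ℝ) := by
          exact_mod_cast h6
      _ = 2 * m - 1 := by rw [Nat.cast_sub (by omega)]; push_cast; ring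
      _ ≤ 2 * T + 1 := by linarith

lemma count_pairs (n : ℕ) (c : ℝ) (hc : 0 < c) :
    ∑ j ∈ range n, ∑ j' ∈ range n, (if c * |(j : ℝ) - j'| < 2 * n then (1 : ℝ) else 0) ≤
      n * (4 * n / c + 1) := by
  have h1 : ∀ j ∈ range n, ∑ j' ∈ range n,
      (if c * |(j : ℝ) - j'| < 2 * n then (1 : ℝ) else 0) ≤ 4 * n / c + 1 := by
    intro j _
    have h2 := count_near n j (2 * n / c) (by positivity)
    have h3 : ∀ j' : ℕ, (c * |(j : ℝ) - j'| < 2 * n) = (|(j : ℝ) - j'| < 2 * n / c) := by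
      intro j'
      rw [lt_div_iff₀ hc, mul_comm]
    simp_rw [h3]
    refine h2.trans (le_of_eq ?_)
    ring
  refine (sum_le_sum h1).trans (le_of_eq ?_)
  rw [sum_const, card_range, nsmul_eq_mul]

section

variable {K n : ℕ} {l η : ℝ}

omit [IsProbabilityMeasure P] in
lemma pair_bound (hG : Good P ξ s₀ C) (hC : 0 ≤ C) (hK : 1 ≤ K) (hn : 1 ≤ n)
    (hb : 4 / √(bb K n 1 : ℝ) ≤ s₀) (hl0 : 0 ≤ l) (hl2 : l ≤ 2)
    (hm : ∀ k, Measurable (ξ k)) (j j' : ℕ) (hj : j < n) (hj' : j' < n) :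
    Integrable (fun ω => GG ξ l η K n (ang n j) ω * GG ξ l η K n (ang n j') ω) P ∧
    ∫ ω, GG ξ l η K n (ang n j) ω * GG ξ l η K n (ang n j') ω ∂P ≤
      exp (l ^ 2 * H (bb K n 1) n / 2) * (exp ((24 + 128 * C) / √(bb K n 1 : ℝ)) +
      exp (25 + 128 * C) * ((if √(bb K n 1 : ℝ) * |(j : ℝ) - j'| < 2 * n then 1 else 0) +
        ∑ q ∈ Ico 1 K, exp (q * (l ^ 2 / 4 * (log n / K) + l * η * log n)) *
          (if (bb K n q : ℝ) * |(j : ℝ) - j'| < 2 * n then 1 else 0))) := by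
  have hn0 : (0 : ℝ) < n := by exact_mod_cast hn
  have hK0 : (K : ℝ) ≠ 0 := by positivity
  set ρ := l ^ 2 / 4 * (log n / K) + l * η * log n with hρ
  set D := exp (l ^ 2 * H (bb K n 1) n / 2) with hD
  have hsum0 : 0 ≤ ∑ q ∈ Ico 1 K, exp (q * ρ) *
          (if (bb K n q : ℝ) * |(j : ℝ) - j'| < 2 * n then 1 else 0) := by
    apply sum_nonneg; intro q _
    split_ifs <;> positivity
  -- choose p
  have hex : ∃ p : ℕ, 1 ≤ p ∧ (p = K ∨ 2 * (n : ℝ) ≤ bb K n p * |(j : ℝ) - j'|) := ⟨K, hK, Or.inl rfl⟩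
  classical
  set p := Nat.find hex with hp
  obtain ⟨hp1, hp2⟩ := Nat.find_spec hex
  have hpK : p ≤ K := Nat.find_min' hex ⟨hK, Or.inl rfl⟩
  have hd : p = K ∨ 1 ≤ bb K n p * |ang n j - ang n j'| := by
    rcases hp2 with h | h
    · exact Or.inl h
    · right
      rw [ang_sub hn, mul_div_assoc', le_div_iff₀ (by positivity), one_mul]
      exact h
  obtain ⟨i1, i2⟩ := mom_near (η := η) hG hC hK hn hb hl0 hl2 (ang_ge n j) (ang_le hj) (ang_ge n j')
    (ang_le hj') hp1 hpK hd hm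
  refine ⟨i1, ?_⟩
  by_cases hfar : √(bb K n 1 : ℝ) * |(j : ℝ) - j'| < 2 * n
  · -- near pair
    rw [if_pos hfar]
    refine i2.trans ?_
    gcongr
    have hA : 0 ≤ exp ((24 + 128 * C) / √(bb K n 1 : ℝ)) := (exp_pos _).le
    have hkey : exp (((p : ℝ) - 1) * ρ) ≤ 1 + ∑ q ∈ Ico 1 K, exp (q * ρ) *
          (if (bb K n q : ℝ) * |(j : ℝ) - j'| < 2 * n then 1 else 0) := by
      rcases Nat.lt_or_ge 1 p with h | h
      · -- p ≥ 2
        have hq := Nat.find_min hex (m := p - 1) (by omega)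
        have hq' : ¬ (p - 1 = K ∨ 2 * (n : ℝ) ≤ bb K n (p - 1) * |(j : ℝ) - j'|) :=
          fun h' => hq ⟨by omega, h'⟩
        push Not at hq'
        have hmem : p - 1 ∈ Ico 1 K := by rw [mem_Ico]; omega
        have h5 := single_le_sum (f := fun q : ℕ => exp (q * ρ) *
          (if (bb K n q : ℝ) * |(j : ℝ) - j'| < 2 * n then (1 : ℝ) else 0)) (s := Ico 1 K)
          (fun q _ => by split_ifs <;> positivity) hmem
        rw [if_pos hq'.2, mul_one, Nat.cast_sub hp1, Nat.cast_one] at h5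
        linarith
      · have h6 : p = 1 := le_antisymm h hp1
        rw [h6]; simp only [Nat.cast_one, sub_self, zero_mul, exp_zero]
        linarith
    have := mul_le_mul_of_nonneg_left hkey (exp_pos (25 + 128 * C)).le
    linarith
  · rw [if_neg hfar]
    have hfar' : 1 ≤ √(bb K n 1 : ℝ) * |ang n j - ang n j'| := by
      rw [ang_sub hn, mul_div_assoc', le_div_iff₀ (by positivity), one_mul]
      push Not at hfar
      exact hfar
    refine (mom_far hG hC hK hn hb hl0 hl2 (ang_ge n j) (ang_le hj) (ang_ge n j')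
      (ang_le hj') hfar' hm).trans ?_
    gcongr
    have := mul_nonneg (exp_pos (25 + 128 * C)).le hsum0
    simp only [zero_add]
    linarith

omit [IsProbabilityMeasure P] in
lemma second_moment (hG : Good P ξ s₀ C) (hC : 0 ≤ C) (hK : 1 ≤ K) (hn : 1 ≤ n)
    (hb : 4 / √(bb K n 1 : ℝ) ≤ s₀) (hl0 : 0 ≤ l) (hl2 : l ≤ 2)
    (hx : l ^ 2 / 4 + l * η * K < 1) (hm : ∀ k, Measurable (ξ k)) :
    Integrable (fun ω => (∑ j ∈ range n, GG ξ l η K n (ang n j) ω) ^ 2) P ∧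
    ∫ ω, (∑ j ∈ range n, GG ξ l η K n (ang n j) ω) ^ 2 ∂P ≤
      (n * exp (l ^ 2 * H (bb K n 1) n / 4)) ^ 2 *
      (exp ((24 + 128 * C) / √(bb K n 1 : ℝ)) + exp (25 + 128 * C) *
        (5 / √(bb K n 1 : ℝ) + 9 * K * exp (-((1 - (l ^ 2 / 4 + l * η * K)) * (log n / K))))) := by
  have hn0 : (0 : ℝ) < n := by exact_mod_cast hn
  have hK0 : (0 : ℝ) < K := by exact_mod_cast hK
  set b := bb K n 1 with hbdef
  have hb1 : 1 ≤ b := bb_one_le _ _ _
  have hbn : b ≤ n := bb_le_n hK hn hK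
  have hbr : (1 : ℝ) ≤ b := by exact_mod_cast hb1
  have hsb : 1 ≤ √(b : ℝ) := by rw [Real.one_le_sqrt]; exact hbr
  have hsb0 : 0 < √(b : ℝ) := by linarith
  have hsbb : √(b : ℝ) ≤ b := by
    rw [Real.sqrt_le_left (by linarith)]; nlinarith
  have hsbn : √(b : ℝ) ≤ n := hsbb.trans (by exact_mod_cast hbn)
  set ρ := l ^ 2 / 4 * (log n / K) + l * η * log n with hρ
  set x := l ^ 2 / 4 + l * η * K with hxdef
  set ℓ := log (n : ℝ) / K with hℓ
  have hℓ0 : 0 ≤ ℓ := ell_nonneg n K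
  have hρx : ρ = x * ℓ := by
    rw [hρ, hxdef, hℓ]; field_simp
  have hsq : ∀ ω, (∑ j ∈ range n, GG ξ l η K n (ang n j) ω) ^ 2 =
      ∑ j ∈ range n, ∑ j' ∈ range n, GG ξ l η K n (ang n j) ω * GG ξ l η K n (ang n j') ω := by
    intro ω; rw [sq, sum_mul_sum]
  simp_rw [hsq]
  have hpair := fun j (hj : j ∈ range n) j' (hj' : j' ∈ range n) =>
    pair_bound (η := η) hG hC hK hn hb hl0 hl2 hm j j' (mem_range.1 hj) (mem_range.1 hj')
  have hint1 : ∀ j ∈ range n, Integrable (fun ω => ∑ j' ∈ range n,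
      GG ξ l η K n (ang n j) ω * GG ξ l η K n (ang n j') ω) P := fun j hj =>
    integrable_finsetSum _ fun j' hj' => (hpair j hj j' hj').1
  refine ⟨integrable_finsetSum _ hint1, ?_⟩
  rw [integral_finsetSum _ hint1]
  have h1 : ∀ j ∈ range n, ∫ ω, ∑ j' ∈ range n,
      GG ξ l η K n (ang n j) ω * GG ξ l η K n (ang n j') ω ∂P =
      ∑ j' ∈ range n, ∫ ω, GG ξ l η K n (ang n j) ω * GG ξ l η K n (ang n j') ω ∂P :=
    fun j hj => integral_finsetSum _ fun j' hj' => (hpair j hj j' hj').1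
  rw [sum_congr rfl h1]
  set A₁ := exp ((24 + 128 * C) / √(b : ℝ)) with hA₁
  set A₂ := exp (25 + 128 * C) with hA₂
  set D := exp (l ^ 2 * H b n / 2) with hD
  have hDD : D = exp (l ^ 2 * H b n / 4) ^ 2 := by
    rw [← exp_nat_mul, hD]; congr 1; push_cast; ring
  have hterm1 : (n : ℝ) * (4 * n / √(b : ℝ) + 1) ≤ n * n * (5 / √(b : ℝ)) := by
    have : (1 : ℝ) ≤ n / √(b : ℝ) := by rw [le_div_iff₀ hsb0, one_mul]; exact hsbn
    calc (n : ℝ) * (4 * n / √(b : ℝ) + 1) ≤ n * (4 * n / √(b : ℝ) + n / √(b : ℝ)) := by gcongr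
      _ = n * n * (5 / √(b : ℝ)) := by ring
  have hterm2 : ∀ q ∈ Ico 1 K, exp (q * ρ) * (n * (4 * n / bb K n q + 1)) ≤
      n * n * (9 * exp (-((1 - x) * ℓ))) := by
    intro q hq
    rw [mem_Ico] at hq
    have hbq := half_le_bb K n q
    have hbq0 : (0 : ℝ) < bb K n q := by exact_mod_cast bb_one_le K n q
    have e2 : 4 * (n : ℝ) / bb K n q ≤ 8 * n * exp (-(q * ℓ)) := by
      rw [div_le_iff₀ hbq0]
      have e3 : exp (-(q * ℓ)) * exp (q * ℓ) = 1 := by rw [← exp_add]; simp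
      have e4 : 1 / 2 ≤ exp (-(q * ℓ)) * bb K n q := by
        calc 1 / 2 = exp (-(q * ℓ)) * (exp (q * ℓ) / 2) := by rw [mul_div_assoc', e3]
          _ ≤ _ := by gcongr
      nlinarith
    have e5 : (1 : ℝ) ≤ n * exp (-(q * ℓ)) := by
      have e6 : (n : ℝ) = exp (K * ℓ) := by
        rw [hℓ, mul_div_cancel₀ _ hK0.ne', exp_log hn0]
      rw [e6, ← exp_add]
      apply Real.one_le_exp
      have : (q : ℝ) * ℓ ≤ K * ℓ := by
        gcongr
        exact_mod_cast hq.2.le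
      linarith
    have e8 : exp (q * ρ) * exp (-(q * ℓ)) ≤ exp (-((1 - x) * ℓ)) := by
      rw [← exp_add]
      apply exp_le_exp.2
      rw [hρx]
      have hq1 : (1 : ℝ) ≤ q := by exact_mod_cast hq.1
      have : 0 ≤ (1 - x) * ℓ := mul_nonneg (by linarith) hℓ0
      nlinarith
    have e9 : (n : ℝ) * (4 * n / bb K n q + 1) ≤ n * (8 * n * exp (-(q * ℓ)) + n * exp (-(q * ℓ))) := by
      apply mul_le_mul_of_nonneg_left _ hn0.le
      linarith
    calc exp (q * ρ) * (n * (4 * n / bb K n q + 1))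
        ≤ exp (q * ρ) * (n * (8 * n * exp (-(q * ℓ)) + n * exp (-(q * ℓ)))) :=
          mul_le_mul_of_nonneg_left e9 (exp_pos _).le
      _ = n * n * (9 * (exp (q * ρ) * exp (-(q * ℓ)))) := by ring
      _ ≤ n * n * (9 * exp (-((1 - x) * ℓ))) := by gcongr
  calc ∑ j ∈ range n, ∑ j' ∈ range n, ∫ ω, GG ξ l η K n (ang n j) ω * GG ξ l η K n (ang n j') ω ∂P
      ≤ ∑ j ∈ range n, ∑ j' ∈ range n, D * (A₁ +
      A₂ * ((if √(b : ℝ) * |(j : ℝ) - j'| < 2 * n then 1 else 0) +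
        ∑ q ∈ Ico 1 K, exp (q * ρ) *
          (if (bb K n q : ℝ) * |(j : ℝ) - j'| < 2 * n then 1 else 0))) :=
        sum_le_sum fun j hj => sum_le_sum fun j' hj' => (hpair j hj j' hj').2
    _ = D * (n * n * A₁ + A₂ * (∑ j ∈ range n, ∑ j' ∈ range n,
          (if √(b : ℝ) * |(j : ℝ) - j'| < 2 * n then (1 : ℝ) else 0) +
        ∑ q ∈ Ico 1 K, exp (q * ρ) * ∑ j ∈ range n, ∑ j' ∈ range n,
          (if (bb K n q : ℝ) * |(j : ℝ) - j'| < 2 * n then (1 : ℝ) else 0))) := by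
        simp_rw [mul_add, sum_add_distrib, sum_const, card_range, nsmul_eq_mul, ← mul_sum]
        have e1 : ∑ j ∈ range n, ∑ j' ∈ range n, ∑ q ∈ Ico 1 K, exp (q * ρ) *
          (if (bb K n q : ℝ) * |(j : ℝ) - j'| < 2 * n then (1 : ℝ) else 0) =
          ∑ q ∈ Ico 1 K, exp (q * ρ) * ∑ j ∈ range n, ∑ j' ∈ range n,
          (if (bb K n q : ℝ) * |(j : ℝ) - j'| < 2 * n then (1 : ℝ) else 0) := by
          simp_rw [mul_sum]
          calc ∑ j ∈ range n, ∑ j' ∈ range n, ∑ q ∈ Ico 1 K, exp (q * ρ) *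
              (if (bb K n q : ℝ) * |(j : ℝ) - j'| < 2 * n then (1 : ℝ) else 0)
              = ∑ j ∈ range n, ∑ q ∈ Ico 1 K, ∑ j' ∈ range n, exp (q * ρ) *
              (if (bb K n q : ℝ) * |(j : ℝ) - j'| < 2 * n then (1 : ℝ) else 0) :=
                sum_congr rfl fun j _ => sum_comm
            _ = _ := sum_comm
        rw [e1]
        ring
    _ ≤ D * (n * n * A₁ + A₂ * (n * (4 * n / √(b : ℝ) + 1) +
        ∑ q ∈ Ico 1 K, exp (q * ρ) * (n * (4 * n / bb K n q + 1)))) := by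
        gcongr with q hq
        · exact count_pairs n _ hsb0
        · exact count_pairs n _ (by exact_mod_cast bb_one_le K n q)
    _ ≤ D * (n * n * A₁ + A₂ * (n * n * (5 / √(b : ℝ)) +
        ∑ q ∈ Ico 1 K, n * n * (9 * exp (-((1 - x) * ℓ))))) := by
        exact mul_le_mul_of_nonneg_left (add_le_add le_rfl (mul_le_mul_of_nonneg_left
          (add_le_add hterm1 (sum_le_sum hterm2)) (exp_pos _).le)) (exp_pos _).le
    _ ≤ _ := by
        rw [sum_const, Nat.card_Ico, nsmul_eq_mul, Nat.cast_sub hK, Nat.cast_one, hDD]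
        have e7 : exp (l ^ 2 * H b n / 4) ^ 2 * (n * n * A₁ + A₂ * (n * n * (5 / √(b : ℝ)) +
          ((K : ℝ) - 1) * (n * n * (9 * exp (-((1 - x) * ℓ)))))) =
          (n * exp (l ^ 2 * H b n / 4)) ^ 2 * (A₁ + A₂ * (5 / √(b : ℝ) +
          9 * ((K : ℝ) - 1) * exp (-((1 - x) * ℓ)))) := by ring
        rw [e7]
        gcongr
        linarith

end

end Pool.Agent.H38.LC
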