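import Mathlib
import Pool.Agent.H38.LC.Second

namespace Pool.Agent.H38.LC

open MeasureTheory ProbabilityTheory Real Finset Filter Topology

variable {Ω : Type*} [MeasurableSpace Ω] {P : Measure Ω} [IsProbabilityMeasure P]
  {ξ : ℕ → Ω → ℝ} {s₀ C : ℝ}

lemma cheb {Z : Ω → ℝ} (hZm : Measurable Z) (hZ2 : Integrable (fun ω => Z ω ^ 2) P) {A u v : ℝ}
    (hA : 0 < A) (hv : 0 < v) (h1 : A * v ≤ ∫ ω, Z ω ∂P) (h2 : ∫ ω, Z ω ^ 2 ∂P ≤ A ^ 2 * u) :
    P.real {ω | Z ω = 0} ≤ u / v ^ 2 - 1 := by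
  have hL2 : MemLp Z 2 P := (memLp_two_iff_integrable_sq hZm.aestronglyMeasurable).2 hZ2
  set m := ∫ ω, Z ω ∂P with hm
  have hm0 : 0 < m := lt_of_lt_of_le (by positivity) h1
  have hch := meas_ge_le_variance_div_sq hL2 hm0
  have hvar : variance Z P = ∫ ω, Z ω ^ 2 ∂P - m ^ 2 := by
    rw [variance_eq_sub hL2]
    rfl
  have hsub : {ω | Z ω = 0} ⊆ {ω | m ≤ |Z ω - ∫ x, Z x ∂P|} := by
    intro ω hω
    simp only [Set.mem_ofPred_eq] at hω ⊢
    rw [hω, ← hm, zero_sub, abs_neg, abs_of_pos hm0]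
  have h3 : P.real {ω | Z ω = 0} ≤ variance Z P / m ^ 2 := by
    have h4 : P {ω | Z ω = 0} ≤ ENNReal.ofReal (variance Z P / m ^ 2) := (measure_mono hsub).trans hch
    rw [Measure.real]
    exact ENNReal.toReal_le_of_le_ofReal (div_nonneg (variance_nonneg _ _) (by positivity)) h4
  refine h3.trans ?_
  rw [hvar, sub_div, div_self (by positivity)]
  have h5 : (∫ ω, Z ω ^ 2 ∂P) / m ^ 2 ≤ u / v ^ 2 := by
    have h6 : 0 ≤ ∫ ω, Z ω ^ 2 ∂P := integral_nonneg fun ω => sq_nonneg _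
    calc (∫ ω, Z ω ^ 2 ∂P) / m ^ 2 ≤ (∫ ω, Z ω ^ 2 ∂P) / (A * v) ^ 2 := by gcongr
      _ ≤ (A ^ 2 * u) / (A * v) ^ 2 := by gcongr
      _ = u / v ^ 2 := by field_simp
  linarith

lemma tendsto_ell {K : ℕ} (hK : 1 ≤ K) : Tendsto (fun n : ℕ => log (n : ℝ) / K) atTop atTop :=
  tendsto_log_nat.atTop_div_const (by exact_mod_cast hK)

lemma tendsto_bb {K : ℕ} (hK : 1 ≤ K) : Tendsto (fun n : ℕ => bb K n 1) atTop atTop := by
  have h1 : Tendsto (fun n : ℕ => exp (log (n : ℝ) / K)) atTop atTop :=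
    tendsto_exp_atTop.comp (tendsto_ell hK)
  have h2 : Tendsto (fun n : ℕ => ⌊exp (log (n : ℝ) / K)⌋₊) atTop atTop :=
    tendsto_nat_floor_atTop.comp h1
  refine h2.congr fun n => ?_
  rw [bb, Nat.cast_one, one_mul]

/-- **Lower bound, core statement.** -/
lemma lower_core (hG : Good P ξ s₀ C) (hs₀ : 0 < s₀) (hC : 0 ≤ C) (hm : ∀ k, Measurable (ξ k))
    {K : ℕ} (hK : 1 ≤ K) {l η : ℝ} (hl0 : 0 ≤ l) (hl2 : l ≤ 2) (hη0 : 0 < η) (hη1 : η ≤ 1)
    (hx : l ^ 2 / 4 + l * η * K < 1) :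
    Tendsto (fun n : ℕ => P.real {ω | ∀ j < n, Yc ξ (bb K n 1) n (ang n j) ω <
      l * H (bb K n 1) n / 2 - η * log n}) atTop (𝓝 0) := by
  have hK0 : (0 : ℝ) < K := by exact_mod_cast hK
  set b : ℕ → ℕ := fun n => bb K n 1 with hb
  have hbt : Tendsto (fun n => √(b n : ℝ)) atTop atTop :=
    tendsto_sqrt_atTop.comp (tendsto_natCast_atTop_atTop.comp (tendsto_bb hK))
  have hdiv : ∀ c : ℝ, Tendsto (fun n => c / √(b n : ℝ)) atTop (𝓝 0) := fun c =>
    Tendsto.const_div_atTop hbt c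
  set u : ℕ → ℝ := fun n => exp ((24 + 128 * C) / √(b n : ℝ)) + exp (25 + 128 * C) *
        (5 / √(b n : ℝ) + 9 * K * exp (-((1 - (l ^ 2 / 4 + l * η * K)) * (log n / K)))) with hu
  set v : ℕ → ℝ := fun n => exp (-(4 + 128 * C) / √(b n : ℝ)) -
      K * exp (11 + 128 * C - 3 / 4 * η ^ 2 * log n) with hv
  have hut : Tendsto u atTop (𝓝 1) := by
    have e1 : Tendsto (fun n => exp ((24 + 128 * C) / √(b n : ℝ))) atTop (𝓝 1) := by
      have := (continuous_exp.tendsto 0).comp (hdiv (24 + 128 * C))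
      rwa [exp_zero] at this
    have e2 : Tendsto (fun n : ℕ => exp (-((1 - (l ^ 2 / 4 + l * η * K)) * (log (n : ℝ) / K))))
        atTop (𝓝 0) := by
      apply tendsto_exp_neg_atTop_nhds_zero.comp
      exact (tendsto_ell hK).const_mul_atTop (by linarith)
    have e3 := e1.add (((hdiv 5).add (e2.const_mul (9 * (K : ℝ)))).const_mul (exp (25 + 128 * C)))
    simpa using e3
  have hvt : Tendsto v atTop (𝓝 1) := by
    have e1 : Tendsto (fun n => exp (-(4 + 128 * C) / √(b n : ℝ))) atTop (𝓝 1) := by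
      have := (continuous_exp.tendsto 0).comp (hdiv (-(4 + 128 * C)))
      rwa [exp_zero] at this
    have e2 : Tendsto (fun n : ℕ => exp (11 + 128 * C - 3 / 4 * η ^ 2 * log (n : ℝ)))
        atTop (𝓝 0) := by
      have e4 : Tendsto (fun n : ℕ => 11 + 128 * C - 3 / 4 * η ^ 2 * log (n : ℝ)) atTop atBot := by
        have := (tendsto_log_nat.const_mul_atTop (show (0 : ℝ) < 3 / 4 * η ^ 2 by positivity))
        exact tendsto_const_nhds.add_atBot (tendsto_neg_atTop_atBot.comp this)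
      exact tendsto_exp_atBot.comp e4
    have e3 := e1.sub (e2.const_mul (K : ℝ))
    rw [mul_zero, sub_zero] at e3
    exact e3
  have hlim : Tendsto (fun n => u n / v n ^ 2 - 1) atTop (𝓝 0) := by
    have := (hut.div (hvt.pow 2) (by norm_num)).sub_const 1
    simpa using this
  have hvpos : ∀ᶠ n in atTop, 0 < v n := hvt.eventually (lt_mem_nhds (by norm_num))
  have hbs : ∀ᶠ n in atTop, 4 / √(b n : ℝ) ≤ s₀ := (hdiv 4).eventually (ge_mem_nhds hs₀)
  refine squeeze_zero' (Eventually.of_forall fun n => measureReal_nonneg) ?_ hlim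
  filter_upwards [hvpos, hbs, eventually_ge_atTop 1] with n hv0 hbs hn
  have hn0 : (0 : ℝ) < n := by exact_mod_cast hn
  obtain ⟨i1, i2⟩ := second_moment (η := η) hG hC hK hn hbs hl0 hl2 hx hm
  have hfirst := fun j (hj : j ∈ range n) =>
    mom_first (η := η) hG hC hK hn hbs hl0 hl2 hη0.le hη1 (ang_ge n j) (ang_le (mem_range.1 hj)) hm
  have hZm : Measurable (fun ω => ∑ j ∈ range n, GG ξ l η K n (ang n j) ω) :=
    Finset.measurable_sum _ fun j _ => GG_meas hm _ _ _ _ _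
  have hE : (n * exp (l ^ 2 * H (bb K n 1) n / 4)) * v n ≤
      ∫ ω, ∑ j ∈ range n, GG ξ l η K n (ang n j) ω ∂P := by
    rw [integral_finsetSum _ fun j hj => (hfirst j hj).1]
    calc (n * exp (l ^ 2 * H (bb K n 1) n / 4)) * v n
        = ∑ j ∈ range n, exp (l ^ 2 * H (bb K n 1) n / 4) * v n := by
          rw [sum_const, card_range, nsmul_eq_mul]; ring
      _ ≤ _ := sum_le_sum fun j hj => (hfirst j hj).2
  have hch := cheb hZm i1 (A := n * exp (l ^ 2 * H (bb K n 1) n / 4)) (u := u n) (v := v n)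
    (by positivity) hv0 hE i2
  refine le_trans (measureReal_mono ?_) hch
  intro ω hω
  simp only [Set.mem_ofPred_eq] at hω ⊢
  apply sum_eq_zero
  intro j hj
  by_contra hne
  have := GG_ne_zero l η K n (ang n j) ω hne
  exact absurd (hω j (mem_range.1 hj)) (not_lt.2 this)

/-- **Lower bound.** -/
lemma lower (hG : Good P ξ s₀ C) (hs₀ : 0 < s₀) (hC : 0 ≤ C) (hm : ∀ k, Measurable (ξ k))
    (hint : ∀ k, Integrable (ξ k) P) {ε : ℝ} (hε : 0 < ε) (hε1 : ε < 1) :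
    Tendsto (fun n : ℕ => P.real {ω | ∀ z : ℂ, ‖z‖ = 1 →
      ‖pol (fun k => (co ξ ω k : ℂ)) (Ioc 0 n) z‖ < (1 - ε) * log n}) atTop (𝓝 0) := by
  -- parameters
  obtain ⟨K, hK16⟩ := exists_nat_ge (16 / ε)
  have hK0 : (0 : ℝ) < K := lt_of_lt_of_le (by positivity) hK16
  have hK : 1 ≤ K := by exact_mod_cast hK0
  have hKε : 1 / (K : ℝ) ≤ ε / 16 := by
    rw [div_le_iff₀ hε] at hK16
    rw [div_le_iff₀ hK0]; linarith
  set l : ℝ := 2 - ε / 2 with hl
  have hl0 : 0 ≤ l := by rw [hl]; linarith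
  have hl2 : l ≤ 2 := by rw [hl]; linarith
  have hl4 : l ^ 2 / 4 ≤ 1 - ε / 4 := by rw [hl]; nlinarith
  set η : ℝ := ε / (16 * K) with hη
  have hη0 : 0 < η := by positivity
  have hηK : η * K = ε / 16 := by rw [hη]; field_simp
  have hη16 : η ≤ ε / 16 := by
    rw [hη]; apply div_le_div_of_nonneg_left hε.le (by norm_num)
    have : (1 : ℝ) ≤ K := by exact_mod_cast hK
    linarith
  have hη1 : η ≤ 1 := by linarith
  have hx : l ^ 2 / 4 + l * η * K < 1 := by
    have : l * η * K ≤ 2 * (ε / 16) := by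
      rw [mul_assoc, hηK]; gcongr
    linarith
  have h1 := lower_core hG hs₀ hC hm hK hl0 hl2 hη0 hη1 hx
  have h2 := (upper hG hs₀ hC hint (ε := 1) one_pos).comp (tendsto_bb hK)
  have h3 := h1.add h2
  rw [add_zero] at h3
  refine squeeze_zero' (Eventually.of_forall fun n => measureReal_nonneg) ?_ h3
  have hlarge : ∀ᶠ n : ℕ in atTop, 16 / ε ≤ log (n : ℝ) := tendsto_log_nat.eventually_ge_atTop _
  filter_upwards [hlarge, eventually_ge_atTop 1] with n hnL hn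
  set L := log (n : ℝ) with hL
  have hL0 : 0 < L := lt_of_lt_of_le (by positivity) hnL
  have hLε : 1 ≤ ε / 16 * L := by
    rw [div_le_iff₀ hε] at hnL; linarith
  set b := bb K n 1 with hb
  have hbn : b ≤ n := bb_le_n hK hn hK
  have hlogb : log (b : ℝ) ≤ L / K := by
    have := log_bb_le K n 1
    simpa using this
  have hH : L - L / K - 1 ≤ H b n := by
    have e1 := le_harm b n hbn
    have e2 := log_bb_add_one_le K n 1
    have e3 : L ≤ log ((n : ℝ) + 1) := by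
      apply log_le_log (by exact_mod_cast hn); linarith
    rw [H]
    simp only [Nat.cast_one, one_mul] at e2
    linarith
  have hLK : L / K ≤ ε / 16 * L := by
    calc L / K = 1 / K * L := by ring
      _ ≤ ε / 16 * L := by gcongr
  have hfin : (1 - ε) * L ≤ l * H b n / 2 - η * L - 2 * (L / K) := by
    have e1 : l * (L - L / K - 1) ≤ l * H b n := by gcongr
    have e2 : l * (L - ε / 16 * L - ε / 16 * L) ≤ l * (L - L / K - 1) := by
      gcongr
    have e3 : η * L ≤ ε / 16 * L := by gcongr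
    have e4 : l * (L - ε / 16 * L - ε / 16 * L) = 2 * L - ε / 2 * L - ε / 4 * L + ε ^ 2 / 16 * L := by
      rw [hl]; ring
    have e5 : 0 ≤ ε ^ 2 / 16 * L := by positivity
    nlinarith
  refine le_trans (measureReal_mono (s₂ := {ω | ∀ j < n, Yc ξ b n (ang n j) ω <
      l * H b n / 2 - η * L} ∪ {ω | ∃ z : ℂ, ‖z‖ = 1 ∧
      (1 + 1) * log b < ‖pol (fun k => (co ξ ω k : ℂ)) (Ioc 0 b) z‖}) ?_) (measureReal_union_le _ _)
  intro ω hω
  by_contra hcon
  rw [Set.mem_union, not_or] at hcon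
  obtain ⟨hc1, hc2⟩ := hcon
  simp only [Set.mem_ofPred_eq, not_forall, not_lt, not_exists, not_and] at hc1 hc2 hω
  obtain ⟨j, hj, hj2⟩ := hc1
  set z := Complex.exp (ang n j * Complex.I) with hz
  have hz1 : ‖z‖ = 1 := Complex.norm_exp_ofReal_mul_I _
  have e1 := hc2 z hz1
  have e2 := hω z hz1
  have e3 : pol (fun k => (co ξ ω k : ℂ)) (Ioc 0 n) z =
      pol (fun k => (co ξ ω k : ℂ)) (Ioc 0 b) z + pol (fun k => (co ξ ω k : ℂ)) (Ioc b n) z := by
    rw [pol, pol, pol, ← sum_union, Ioc_union_Ioc_eq_Ioc (by omega) hbn]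
    exact Ioc_disjoint_Ioc_of_le le_rfl
  have e4 : Yc ξ b n (ang n j) ω ≤ ‖pol (fun k => (co ξ ω k : ℂ)) (Ioc b n) z‖ := by
    have e5 : Yc ξ b n (ang n j) ω = (pol (fun k => (co ξ ω k : ℂ)) (Ioc b n) z).re := by
      have e6 := R_eq (co ξ ω) (Ioc b n) (ang n j) 0
      simp only [Complex.ofReal_zero, neg_zero, zero_mul, Complex.exp_zero, one_mul] at e6
      rw [← e6, R, Yc]
      refine sum_congr rfl fun k _ => ?_
      rw [sub_zero, mul_comm]
    rw [e5]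
    exact Complex.re_le_norm _
  have e7 : ‖pol (fun k => (co ξ ω k : ℂ)) (Ioc b n) z‖ ≤
      ‖pol (fun k => (co ξ ω k : ℂ)) (Ioc 0 n) z‖ + ‖pol (fun k => (co ξ ω k : ℂ)) (Ioc 0 b) z‖ := by
    have : pol (fun k => (co ξ ω k : ℂ)) (Ioc b n) z = pol (fun k => (co ξ ω k : ℂ)) (Ioc 0 n) z -
        pol (fun k => (co ξ ω k : ℂ)) (Ioc 0 b) z := by rw [e3]; ring
    rw [this]
    exact norm_sub_le _ _
  linarith

end Pool.Agent.H38.LC
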